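import Pool.Agent.Work.MP_db9399_owc_helper89.STEP2
import Pool.Agent.Work.MP_db9399_ow_helper6.ITER

/-!
# MP_db9399, OWN2, block ITER2: all batches (helper89; copy of ITER of helper6 with bad vertices)
-/

set_option autoImplicit false

namespace Pool.Agent.Work.MP_db9399_owc.helper89

open Finset Classical
open Pool.Agent.Work.MP_db9399_all (nb mis pr DepOnI)
open Pool.Agent.Work.MP_db9399_ow
open Pool.Agent.Work.MP_db9399_ow.helper6
open Pool.Agent.Work.MP_db9399_owc

universe u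

theorem stmt_ITER2 (hBATCH : Stmt_BATCH2.{u}) (hSTPI : Stmt_STPI.{u}) (hSTPO : Stmt_STPO.{u})
    (hSTPC : Stmt_STPC.{u}) (hPNB : Stmt_PNB) : Stmt_ITER2.{u} := by
  intro B C K K1 E hB
  obtain ⟨N1, x1, hx1, H⟩ := step2 hBATCH hSTPI hSTPO hSTPC hPNB B C K K1 E hB
  set m := eM B E (K + K1 + 1) with hm
  set w := eA B E + (B + 1) + (C + 2) + (K + K1 + 1) + 5 with hw
  refine ⟨m + w + 1, G0 B E + 2, N1 + m + 10, max x1 (10 ^ 6), ?_⟩
  intro V _ G d x P J R Y _ _ _ S g e Q Z jy hx hlog hxN hP hPd hdeg hmis hS hQ hCap hjy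
  have hxx1 : x1 ≤ x := (le_max_left _ _).trans hx
  have hx6 : 10 ^ 6 ≤ x := (le_max_right _ _).trans hx
  have hxpos : 0 < x := by omega
  have hX : (10 ^ 6 : ℝ) ≤ x := by exact_mod_cast hx6
  have hX0 : (0 : ℝ) < x := by linarith
  have hX1 : (1 : ℝ) ≤ x := by linarith
  have hpow : ∀ k, k ≤ N1 + m + 10 → (x : ℝ) ^ k ≤ d := by
    intro k hk
    have h1 : x ^ k ≤ x ^ (N1 + m + 10) := Nat.pow_le_pow_right hxpos hk
    exact_mod_cast h1.trans hxN
  have hd6 : (10 ^ 6 : ℝ) ≤ d := by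
    have := hpow 1 (by omega)
    rw [pow_one] at this
    linarith
  have hd0 : (0 : ℝ) < d := by linarith
  have hl0 : 0 ≤ Real.log d := Real.log_nonneg (by linarith)
  rcases isEmpty_or_nonempty V with hV | hV
  · refine ⟨∅, fun v => hV.elim v, ∅, fun v => hV.elim v, fun v => hV.elim v, fun v => hV.elim v,
      fun j b => by rw [Finset.sum_empty]; positivity, fun j => ?_, fun j => ?_, fun q => ?_,
      fun v => hV.elim v, fun v => hV.elim v, fun j b => by rw [Finset.sum_empty]; positivity,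
      fun j => by rw [Finset.sum_empty]; positivity, fun y b => ?_⟩
    · have h1 : ∀ b : Fin P, |∑ v ∈ univ.filter (fun v : V => v ∉ (∅ : Finset V) ∧
          (fun v => hV.elim v : V → Fin P) v = b), g j b v| = 0 := by
        intro b
        rw [Finset.univ_eq_empty, Finset.filter_empty, Finset.sum_empty, abs_zero]
      rw [Finset.sum_congr rfl (fun b _ => h1 b), Finset.sum_const_zero]
      positivity
    · rw [Finset.univ_eq_empty, Finset.filter_empty, Finset.sum_empty]
      positivity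
    · have h1 : (Q q).filter (fun y => y.2 ∉ (∅ : Finset V) ∧
          (fun v => hV.elim v : V → Fin P) y.2 = y.1) = ∅ := by
        apply Finset.eq_empty_of_forall_notMem
        intro y
        exact hV.elim y.2
      rw [h1, card_empty, Nat.cast_zero]
      positivity
    · have h1 : (Z y).filter (fun v => v ∉ (∅ : Finset V) ∧ v ∉ (∅ : Finset V) ∧
          (fun v => hV.elim v : V → Fin P) v = b) = ∅ := by
        apply Finset.eq_empty_of_forall_notMem
        intro v
        exact hV.elim v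
      rw [h1, card_empty, Nat.cast_zero]
      positivity
  set y : ℝ := 1 / (x : ℝ) with hy
  have hy0 : 0 < y := by positivity
  have hy6 : y ≤ 1 / 10 ^ 6 := by
    rw [hy]
    exact one_div_le_one_div_of_le (by norm_num) hX
  have hyle1 : y ≤ 1 := by
    refine hy6.trans ?_
    norm_num
  have hyX : ∀ k : ℕ, y ^ k = 1 / (x : ℝ) ^ k := fun k => by rw [hy, one_div, inv_pow, one_div]
  have hypow : ∀ k : ℕ, 1 ≤ k → y ^ k ≤ 1 / 10 ^ 6 := by
    intro k hk
    exact (pow_le_pow_of_le_one hy0.le hyle1 hk).trans (by rw [pow_one]; exact hy6)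
  have hyB0 : 0 < y ^ B := by positivity
  have hyB1 : y ^ B ≤ 1 / 10 ^ 6 := hypow B (by omega)
  -- the batches
  set β : ℕ := d / x ^ m with hβ
  have hxm : x ^ m ≤ d := (Nat.pow_le_pow_right hxpos (by omega)).trans hxN
  have hβ1 : β * x ^ m ≤ d := Nat.div_mul_le_self d (x ^ m)
  have hxm0 : 0 < x ^ m := Nat.pow_pos hxpos
  have hβpos : 0 < β := Nat.div_pos hxm hxm0
  have hβ2 : d ≤ 2 * (β * x ^ m) := by
    have h1 : d < x ^ m * (β + 1) := Nat.lt_mul_div_succ d hxm0
    nlinarith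
  have hβr : (0 : ℝ) < β := by exact_mod_cast hβpos
  set z : ℝ := (β : ℝ) / d with hz
  have hz0 : 0 < z := by positivity
  have hzm : z ≤ y ^ B := by
    have h1 : z ≤ y ^ m := by
      rw [hyX, hz, div_le_div_iff₀ hd0 (by positivity), one_mul]
      exact_mod_cast hβ1
    refine h1.trans (pow_le_pow_of_le_one hy0.le hyle1 ?_)
    rw [hm]
    unfold eM
    omega
  have hPd' : (d : ℝ) - d * y ^ B ≤ P := by
    rw [hyX, mul_one_div]
    exact hPd
  have hP0 : 0 < P := by
    have h1 : (0 : ℝ) < P := by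
      have : (d : ℝ) * y ^ B ≤ d * (1 / 10 ^ 6) := by gcongr
      linarith
    exact_mod_cast h1
  have ind : ∀ i : ℕ, (i * β : ℝ) ≤ d - d * y ^ B → ∃ (U Bd : Finset V) (c : V → Fin P),
      St G d g e Q B E K1 y (2 * (x : ℝ) ^ m * (x : ℝ) ^ w) U c (i * β) (1 - i * z) ∧
      Sb G d g Z (kk d Z) U Bd c ((1 - (1 - i * z)) * y ^ (B + E + 3)) := by
    intro i
    induction i with
    | zero =>
      intro _
      refine ⟨univ, ∅, fun _ => ⟨0, hP0⟩, ?_⟩
      have h1 : ((0 : ℕ) : ℝ) * z = 0 := by simp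
      rw [h1, sub_zero, Nat.zero_mul, sub_self, zero_mul]
      refine ⟨St_zero _ B E K1 y _ hy0, ?_⟩
      refine ⟨fun v hv => absurd hv (notMem_empty v), fun τ => ?_, fun j s => ?_, fun q b => ?_⟩
      · rw [Finset.sum_empty]
      · rw [Finset.sum_empty]
      · have h2 : (Z q).filter (fun v => v ∉ (univ : Finset V) ∧ v ∉ (∅ : Finset V) ∧
            (fun _ => (⟨0, hP0⟩ : Fin P)) v = b) = ∅ := by
          apply Finset.filter_eq_empty_iff.2
          rintro v _ ⟨hv, _⟩
          exact hv (mem_univ v)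
        rw [h2, card_empty, Nat.cast_zero]
        unfold kk
        positivity
    | succ i ih =>
      intro hi
      push_cast at hi
      have hi' : (i * β : ℝ) ≤ d - d * y ^ B := by
        have : (i * β : ℝ) ≤ (i + 1) * β := by
          apply mul_le_mul_of_nonneg_right _ hβr.le
          linarith
        linarith
      obtain ⟨U, Bd, c, hU, hUb⟩ := ih hi'
      have hiz : (((i : ℝ) + 1) * z) ≤ 1 - y ^ B := by
        have h1 : ((i : ℝ) + 1) * z = ((i + 1) * β) / d := by rw [hz]; ring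
        rw [h1, div_le_iff₀ hd0]
        linarith
      have hnP : i * β + β ≤ P := by
        have h1 : ((i * β + β : ℕ) : ℝ) ≤ P := by
          push_cast
          linarith
        exact_mod_cast h1
      obtain ⟨U', Bd', c', hU', hUb'⟩ := H G d x P J R Y Z jy S g e Q hxx1 hlog
        ((Nat.pow_le_pow_right hxpos (by omega)).trans hxN) hP hdeg hmis hS hQ hCap hjy β (i * β)
        hβ1 hβ2 hnP U Bd c (1 - i * z) (by
          have : 0 ≤ (i : ℝ) * z := by positivity
          linarith) (by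
          rw [← hy, ← hz]
          linarith) hU hUb
      refine ⟨U', Bd', c', ?_⟩
      have h1 : (i + 1) * β = i * β + β := by ring
      have h2 : 1 - ((i + 1 : ℕ) : ℝ) * z = 1 - i * z - z := by
        push_cast
        ring
      rw [h1, h2]
      exact ⟨hU', hUb'⟩
  -- the last state
  obtain ⟨I, hI1, hI2⟩ : ∃ I : ℕ, (I * β : ℝ) ≤ d - d * y ^ B ∧
      d - d * y ^ B < (I + 1) * β := by
    have h0 : 0 ≤ (d : ℝ) - d * y ^ B := by
      have : (d : ℝ) * y ^ B ≤ d * (1 / 10 ^ 6) := by gcongr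
      linarith
    refine ⟨⌊(d - d * y ^ B) / β⌋₊, ?_, ?_⟩
    · have := Nat.floor_le (div_nonneg h0 hβr.le)
      rwa [le_div_iff₀ hβr] at this
    · have := Nat.lt_floor_add_one ((d - d * y ^ B) / β)
      rwa [div_lt_iff₀ hβr] at this
  obtain ⟨U, Bd, c, hUc, hUb⟩ := ind I hI1
  set u : ℝ := 1 - I * z with hu
  have hu1 : y ^ B ≤ u := by
    have h1 : (I : ℝ) * z = (I * β) / d := by rw [hz]; ring
    rw [hu, h1]
    have : (I * β : ℝ) / d ≤ 1 - y ^ B := by
      rw [div_le_iff₀ hd0]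
      linarith
    linarith
  have hu2 : u ≤ 2 * y ^ B := by
    have h1 : (I : ℝ) * z = (I * β) / d := by rw [hz]; ring
    have h2 : 1 - y ^ B < ((I : ℝ) + 1) * z := by
      have h3 : ((I : ℝ) + 1) * z = ((I + 1) * β) / d := by rw [hz]; ring
      rw [h3, lt_div_iff₀ hd0]
      linarith
    rw [hu]
    linarith
  have hu0 : 0 < u := by linarith
  have hules : u ≤ 1 := by
    refine hu2.trans ?_
    linarith
  have hStt : Stt G d g e Q U c (I * β) u (er B E y u) ((1 - u) * y ^ (B + E + 3))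
    (y ^ K1 / 8 / 256 * (d * min (1 - u) (y ^ K1 / 8)))
    ((1 - u) * (2 * (x : ℝ) ^ m * (x : ℝ) ^ w)) := hUc
  have her : er B E y u ≤ y ^ (2 * B + E + 4) := er_le hy0 hu1
  have her0 : 0 ≤ er B E y u := er_nonneg hy0.le hu0.le
  have herB : er B E y u ≤ y ^ B * (1 / 10 ^ 6) := by
    refine her.trans ?_
    have h1 : y ^ (2 * B + E + 4) = y ^ B * y ^ (B + E + 4) := by
      rw [← pow_add]
      congr 1
      ring
    rw [h1]
    exact mul_le_mul_of_nonneg_left (hypow _ (by omega)) hyB0.le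
  have hdeg' : ∀ v, |((nb G v).card : ℝ) - d| ≤ y ^ (G0 B E + 2) * d := by
    intro v
    refine (hdeg v).trans (le_of_eq ?_)
    rw [hyX]
    ring
  have hη : y ^ (G0 B E + 2) ≤ y ^ (B + 2) := by
    apply pow_le_pow_of_le_one hy0.le hyle1
    unfold G0
    omega
  have hηB : y ^ (G0 B E + 2) ≤ y ^ B * (1 / 10 ^ 6) := by
    refine hη.trans ?_
    rw [pow_add]
    exact mul_le_mul_of_nonneg_left (hypow _ (by omega)) hyB0.le
  have hη0 : 0 ≤ y ^ (G0 B E + 2) := by positivity
  have hrr : (1 - u) * y ^ (B + E + 3) ≤ y ^ E := by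
    have h1 : y ^ (B + E + 3) ≤ y ^ E := pow_le_pow_of_le_one hy0.le hyle1 (by omega)
    have h2 : 0 ≤ y ^ (B + E + 3) := by positivity
    nlinarith
  have hrrB : (1 - u) * y ^ (B + E + 3) ≤ y ^ B * (1 / 10 ^ 6) := by
    have h1 : y ^ (B + E + 3) = y ^ B * y ^ (E + 3) := by rw [← pow_add]; congr 1
    have h2 : y ^ (E + 3) ≤ 1 / 10 ^ 6 := hypow _ (by omega)
    have h3 : y ^ (B + E + 3) ≤ y ^ B * (1 / 10 ^ 6) := by
      rw [h1]
      exact mul_le_mul_of_nonneg_left h2 hyB0.le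
    have h4 : 0 ≤ y ^ (B + E + 3) := by positivity
    nlinarith
  -- the bad vertices
  have hbrr : (1 - u) * y ^ (B + E + 3) ≤ y ^ E / 1000 := by
    have h1 : y ^ (B + E + 3) = y ^ E * y ^ (B + 3) := by rw [← pow_add]; congr 1; ring
    have h2 : y ^ (B + 3) ≤ 1 / 10 ^ 6 := hypow _ (by omega)
    have h3 : y ^ (B + E + 3) ≤ y ^ E * (1 / 10 ^ 6) := by
      rw [h1]
      exact mul_le_mul_of_nonneg_left h2 (by positivity)
    have h4 : 0 ≤ y ^ (B + E + 3) := by positivity
    have h5 : 0 ≤ y ^ E := by positivity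
    nlinarith
  have hUb1 : Sb G d g Z (kk d Z) U Bd c ((1 - u) * y ^ (B + E + 3)) := hUb
  have hbabs : ∀ (W : Finset V) (f : V → ℝ), ∑ v ∈ W, |f v| =
      ∑ v ∈ W, max (if true then f v else - f v) 0 +
        ∑ v ∈ W, max (if false then f v else - f v) 0 := by
    intro W f
    rw [← Finset.sum_add_distrib]
    refine Finset.sum_congr rfl fun v _ => ?_
    simp only [if_true, Bool.false_eq_true, if_false]
    rcases le_total 0 (f v) with h | h
    · rw [abs_of_nonneg h, max_eq_left h, max_eq_right (by linarith), add_zero]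
    · rw [abs_of_nonpos h, max_eq_right h, max_eq_left (by linarith), zero_add]
  have hyE0 : 0 ≤ y ^ E := by positivity
  refine ⟨U, c, Bd, hStt.prp, ?_, ?_, ?_, ?_, ?_, ?_, hUb1.out, ?_, ?_, ?_, ?_⟩
  · intro v
    have hdpos : 0 < d := by exact_mod_cast hd0
    have h1 := (abs_le.1 (deg_bd hdpos hStt hdeg' hu0.le v)).2
    have h2 : 4 * (d : ℝ) / (x : ℝ) ^ B = 4 * y ^ B * d := by
      rw [hyX]
      ring
    rw [h2]
    have h3 : 2 * er B E y u + u * y ^ (G0 B E + 2) ≤ y ^ B := by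
      have : u * y ^ (G0 B E + 2) ≤ 1 * y ^ (G0 B E + 2) := by gcongr
      linarith
    have h4 : (2 * er B E y u + u * y ^ (G0 B E + 2)) * d ≤ y ^ B * d := by gcongr
    have h5 : u * d ≤ 2 * y ^ B * d := by gcongr
    have h6 : 0 ≤ y ^ B * d := by positivity
    linarith
  · intro v
    have h1 := hStt.cnt v
    have h2 : ((univ.filter (fun b => ∀ w ∈ nb G v, w ∉ U → c w ≠ b)).card : ℝ) =
        P - (univ.filter (fun b => ∃ w ∈ nb G v, w ∉ U ∧ c w = b)).card := by
      have h3 : (univ.filter (fun b => ∀ w ∈ nb G v, w ∉ U → c w ≠ b)) =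
          (univ.filter (fun b => ∃ w ∈ nb G v, w ∉ U ∧ c w = b))ᶜ := by
        ext b
        simp only [mem_filter, mem_univ, true_and, mem_compl, not_exists, not_and]
      rw [h3, card_compl, Fintype.card_fin, Nat.cast_sub]
      have := card_le_univ (univ.filter (fun b => ∃ w ∈ nb G v, w ∉ U ∧ c w = b))
      rwa [Fintype.card_fin] at this
    rw [h2]
    have h3 := (abs_le.1 (hdeg' v)).2
    have h4 : min (1 - u) (y ^ K1 / 8) = y ^ K1 / 8 := by
      apply min_eq_right
      have : y ^ K1 ≤ 1 := pow_le_one₀ hy0.le hyle1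
      linarith
    rw [h4] at h1
    have h5 : (d : ℝ) / (x : ℝ) ^ (2 * K1 + 1) = y ^ (2 * K1) * y * d := by
      rw [← pow_succ, hyX]
      ring
    rw [h5]
    have h6 : y ^ K1 / 8 / 256 * (d * (y ^ K1 / 8)) = y ^ (2 * K1) * d / 16384 := by
      rw [two_mul, pow_add]
      ring
    rw [h6] at h1
    have h7 : y ^ B * d ≤ y ^ (2 * K1) * (1 / 10 ^ 6) * d := by
      apply mul_le_mul_of_nonneg_right _ hd0.le
      have h8 : y ^ B ≤ y ^ (2 * K1 + 1) := pow_le_pow_of_le_one hy0.le hyle1 (by omega)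
      have h9 : y ^ (2 * K1 + 1) = y ^ (2 * K1) * y := pow_succ _ _
      rw [h9] at h8
      have h10 : 0 ≤ y ^ (2 * K1) := by positivity
      nlinarith
    have h8 : y ^ (2 * K1) * y * d ≤ y ^ (2 * K1) * (1 / 10 ^ 6) * d := by gcongr
    have h9 : y ^ (G0 B E + 2) * d ≤ y ^ B * (1 / 10 ^ 6) * d := by gcongr
    have h10 : (1 - u) * y ^ (B + E + 3) * d ≤ y ^ B * (1 / 10 ^ 6) * d := by gcongr
    have h11 : (0 : ℝ) ≤ (nb G v ∩ U).card := Nat.cast_nonneg _
    have h12 : 0 ≤ y ^ (2 * K1) * d := by positivity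
    have h13 : 0 ≤ y ^ B * d := by positivity
    linarith
  · intro j b
    have h1 := sum_abs_bd hStt (fun j b => hS.sum j b) hu0.le j b
    have h2 : (4 : ℝ) / (x : ℝ) ^ B = 4 * y ^ B := by
      rw [hyX]
      ring
    rw [h2]
    linarith
  · intro j
    have h1 := hStt.o1 j
    have h2 : ∑ b, |∑ v ∈ univ.filter (fun v => v ∉ U ∧ c v = b), g j b v| =
        ∑ b ∈ univ.filter (fun b : Fin P => (b : ℕ) < I * β),
          |∑ v ∈ univ.filter (fun v => v ∉ U ∧ c v = b), g j b v| := by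
      symm
      apply Finset.sum_subset (filter_subset _ _)
      intro b _ hb
      have h3 : univ.filter (fun v => v ∉ U ∧ c v = b) = ∅ := by
        apply Finset.filter_eq_empty_iff.2
        rintro v _ ⟨hv, hcv⟩
        apply hb
        rw [mem_filter]
        refine ⟨mem_univ _, ?_⟩
        rw [← hcv]
        exact hStt.low v hv
      rw [h3, Finset.sum_empty, abs_zero]
    rw [h2]
    have h3 : ∑ b ∈ univ.filter (fun b : Fin P => (b : ℕ) < I * β), |∑ v, g j b v| ≤
        ∑ b, |∑ v, g j b v| :=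
      Finset.sum_le_sum_of_subset_of_nonneg (filter_subset _ _) fun _ _ _ => abs_nonneg _
    have h4 : 1 / (d : ℝ) * ∑ b ∈ univ.filter (fun b : Fin P => (b : ℕ) < I * β),
        |∑ v, g j b v| ≤ 1 / (d : ℝ) * ∑ b, |∑ v, g j b v| := by gcongr
    have h5 : 0 ≤ Real.sqrt u := Real.sqrt_nonneg _
    have h6 : 0 ≤ Real.sqrt (e j) := Real.sqrt_nonneg _
    have h7 : 130 * (1 - Real.sqrt u) * Real.sqrt (e j) ≤ 130 * Real.sqrt (e j) := by
      have : 0 ≤ Real.sqrt u * Real.sqrt (e j) := by positivity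
      linarith
    rw [← hyX]
    linarith
  · intro j
    have h1 := hStt.o2 j
    have h3 : ∑ b ∈ univ.filter (fun b : Fin P => (b : ℕ) < I * β), ∑ v, |g j b v| ≤
        ∑ b, ∑ v, |g j b v| :=
      Finset.sum_le_sum_of_subset_of_nonneg (filter_subset _ _)
        fun _ _ _ => Finset.sum_nonneg fun _ _ => abs_nonneg _
    have h4 : 1 / (d : ℝ) * ∑ b ∈ univ.filter (fun b : Fin P => (b : ℕ) < I * β),
        ∑ v, |g j b v| ≤ 1 / (d : ℝ) * ∑ b, ∑ v, |g j b v| := by gcongr
    rw [← hyX]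
    linarith
  · intro q
    refine (hStt.upp q).trans ?_
    have h1 : (x : ℝ) ^ (m + w + 1) = (x : ℝ) ^ m * (x : ℝ) ^ w * x := by
      rw [pow_succ, pow_add]
    rw [h1]
    have h2 : 0 ≤ (x : ℝ) ^ m * (x : ℝ) ^ w := by positivity
    have h3 : (1 - u) * (2 * (x : ℝ) ^ m * (x : ℝ) ^ w) ≤ 1 * (2 * (x : ℝ) ^ m * (x : ℝ) ^ w) := by
      apply mul_le_mul_of_nonneg_right _ (by positivity)
      linarith
    have h4 : (x : ℝ) ^ m * (x : ℝ) ^ w * 2 ≤ (x : ℝ) ^ m * (x : ℝ) ^ w * x := by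
      apply mul_le_mul_of_nonneg_left _ h2
      linarith
    linarith
  · intro v
    have h1 := hUb1.cst (Sum.inl v)
    rw [sum_Hc_inl, div_le_iff₀ (by positivity)] at h1
    have h2 : (d : ℝ) / (x : ℝ) ^ E = y ^ E * d := by
      rw [hyX]
      ring
    rw [h2]
    have h3 : (1 - u) * y ^ (B + E + 3) * (2 * d) ≤ y ^ E / 1000 * (2 * d) :=
      mul_le_mul_of_nonneg_right hbrr (by positivity)
    have h4 : 0 ≤ y ^ E * d := by positivity
    linarith
  · intro j b
    rw [hbabs Bd (fun v => g j b v), ← hyX]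
    have h1 := hUb1.cst (Sum.inr (j, b, true))
    have h2 := hUb1.cst (Sum.inr (j, b, false))
    have h3 : ∑ v ∈ Bd, max (if true then g j b v else - g j b v) 0 ≤ _ := h1
    have h4 : ∑ v ∈ Bd, max (if false then g j b v else - g j b v) 0 ≤ _ := h2
    linarith
  · intro j
    rw [hbabs Bd (fun v => g j (c v) v), ← hyX]
    have h1 := hUb1.mix j true
    have h2 := hUb1.mix j false
    linarith
  · intro q b
    refine (hUb1.cap q b).trans ?_
    unfold kk
    have h1 : (⌈100 * Real.log d⌉₊ : ℝ) ≤ 100 * Real.log d + 1 :=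
      (Nat.ceil_lt_add_one (show 0 ≤ 100 * Real.log d by positivity)).le
    have h2 : 1000 * (⌈100 * Real.log d⌉₊ : ℝ) ≤ 200000 * (Real.log d + 1) := by linarith
    exact mul_le_mul_of_nonneg_right h2 (by positivity)

end Pool.Agent.Work.MP_db9399_owc.helper89
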