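import Pool.Agent.Work.MP_db9399_owc.Blocks
import Pool.Agent.Work.MP_db9399_ow_helper79.OWN

/-!
# MP_db9399, OWN2: assembly from ITER2, SUBL2, SSUB, LSTL (helper89; copy of OWN of helper79)
-/

set_option autoImplicit false

namespace Pool.Agent.Work.MP_db9399_owc.helper89

open Finset Classical
open Pool.Agent.Work.MP_db9399_all (nb mis pr DepOnI)
open Pool.Agent.Work.MP_db9399_en
open Pool.Agent.Work.MP_db9399_ow
open Pool.Agent.Work.MP_db9399_ow.helper79
open Pool.Agent.Work.MP_db9399_owc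

universe u

section defs
variable {V : Type u} [Fintype V] {P : ℕ} {J Y : Type u}

/-- the tests for ITER2 -/
noncomputable def gg2 (G : SimpleGraph V) (d x K : ℕ) (g : J → Fin P → V → ℝ)
    (Fb : V → Finset (Fin P)) (Z : Y → Finset V) :
    (J ⊕ (V ⊕ (J × Fin P))) ⊕ (Y ⊕ Y) → Fin P → V → ℝ
  | Sum.inl j => gg G d g Fb j
  | Sum.inr (Sum.inl y) => fun _ v => Zt d x K Z y v
  | Sum.inr (Sum.inr y) => fun b v => if b ∈ Fb v then Zt d x K Z y v else 0

/-- variances -/
noncomputable def eg2 (x K : ℕ) (e : J → ℝ) : (J ⊕ (V ⊕ (J × Fin P))) ⊕ (Y ⊕ Y) → ℝ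
  | Sum.inl j => eg (V := V) (P := P) e j
  | Sum.inr _ => (x : ℝ) ^ K

/-- supports -/
noncomputable def sg2 (G : SimpleGraph V) (S : J → Finset V) (Z : Y → Finset V) :
    (J ⊕ (V ⊕ (J × Fin P))) ⊕ (Y ⊕ Y) → Finset V
  | Sum.inl j => sg (P := P) G S j
  | Sum.inr (Sum.inl y) => Z y
  | Sum.inr (Sum.inr y) => Z y

theorem Zt_bd (d x K : ℕ) (Z : Y → Finset V) (hd : 0 < d) (hx : 1 ≤ x) (y : Y) :
    (∀ v, 0 ≤ Zt d x K Z y v) ∧ (∀ v, Zt d x K Z y v ≤ (x : ℝ) ^ K / d) ∧
      (∑ v, Zt d x K Z y v ≤ 1) ∧ ∀ v, v ∉ Z y → Zt d x K Z y v = 0 := by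
  have hd0 : (0 : ℝ) < d := by exact_mod_cast hd
  have hx0 : (0 : ℝ) < x := by exact_mod_cast hx
  have hxK : (0 : ℝ) < (x : ℝ) ^ K := by positivity
  have hm0 : 0 < max ((Z y).card : ℝ) ((d : ℝ) / (x : ℝ) ^ K) :=
    lt_of_lt_of_le (by positivity) (le_max_right _ _)
  refine ⟨fun v => ?_, fun v => ?_, ?_, fun v hv => if_neg hv⟩
  · unfold Zt
    split_ifs
    · positivity
    · exact le_rfl
  · unfold Zt
    split_ifs
    · rw [div_le_div_iff₀ hm0 hd0, one_mul]
      have h1 := mul_le_mul_of_nonneg_left (le_max_right ((Z y).card : ℝ) ((d : ℝ) / (x : ℝ) ^ K))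
        hxK.le
      have h2 : (x : ℝ) ^ K * ((d : ℝ) / (x : ℝ) ^ K) = d := by
        field_simp
      linarith
    · positivity
  · have h5 : ∑ v, Zt d x K Z y v = ((Z y).card : ℝ) *
        (1 / max ((Z y).card : ℝ) ((d : ℝ) / (x : ℝ) ^ K)) := by
      unfold Zt
      rw [← sum_filter, sum_const, nsmul_eq_mul]
      congr 2
      apply congrArg
      ext v
      simp
    rw [h5, mul_one_div, div_le_one hm0]
    exact le_max_left _ _

theorem sig_gg2 [Fintype J] [Fintype Y] (G : SimpleGraph V) (d x C K : ℕ)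
    (g : J → Fin P → V → ℝ) (Fb : V → Finset (Fin P)) (e : J → ℝ) (S : J → Finset V)
    (Z : Y → Finset V) (hx : 100 ≤ x) (hd : 0 < d) (hlog : Real.log d ≤ x) (hP : P ≤ 2 * d)
    (hdeg : ∀ v, ((nb G v).card : ℝ) ≤ 2 * d)
    (h : Sig ((x : ℝ) ^ K / d) (Real.exp ((x : ℝ) ^ C)) S g (fun j => e j / d)) (hC : Cap d Z)
    (_hF : ∀ v, ((Fb v).card : ℝ) ≤ d) :
    Sig ((x : ℝ) ^ K / d) (Real.exp ((x : ℝ) ^ (C + 3))) (sg2 (P := P) G S Z)
      (gg2 G d x K g Fb Z) (fun j => eg2 (V := V) (P := P) x K e j / d) := by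
  have hd0 : (0 : ℝ) < d := by exact_mod_cast hd
  have hd1 : (1 : ℝ) ≤ d := by exact_mod_cast hd
  have hx3 : (100 : ℝ) ≤ x := by exact_mod_cast hx
  have hxK : (1 : ℝ) ≤ (x : ℝ) ^ K := one_le_pow₀ (by linarith)
  have h0 := sig_gg G d x C K g Fb e S (by omega) hd hlog hP hdeg h
  have hdx : (d : ℝ) ≤ Real.exp x := by
    rw [← Real.exp_log hd0]
    exact Real.exp_le_exp.2 hlog
  have hpw : (x : ℝ) ^ 2 ≤ (x : ℝ) ^ (C + 2) := pow_le_pow_right₀ (by linarith) (by omega)
  have hbig : (x : ℝ) ^ (C + 2) + 3 * x + 3 ≤ (x : ℝ) ^ (C + 3) := by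
    have h1 : (x : ℝ) ^ (C + 3) = (x : ℝ) ^ (C + 2) * x := by ring
    rw [h1]
    nlinarith
  have hd3 : (d : ℝ) ^ 3 ≤ Real.exp (3 * x) := by
    have h1 : Real.exp (3 * x) = Real.exp x ^ 3 := by
      rw [← Real.exp_nat_mul]
      norm_num
    rw [h1]
    exact pow_le_pow_left₀ hd0.le hdx 3
  have hE1 : Real.exp ((x : ℝ) ^ (C + 2)) ≤ Real.exp ((x : ℝ) ^ (C + 3)) :=
    Real.exp_le_exp.2 (by linarith)
  have hE2 : Real.exp ((x : ℝ) ^ (C + 2)) + 2 * (d : ℝ) ^ 3 ≤ Real.exp ((x : ℝ) ^ (C + 3)) := by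
    have h1 : Real.exp ((x : ℝ) ^ (C + 2)) ≤ Real.exp ((x : ℝ) ^ (C + 2) + 3 * x) :=
      Real.exp_le_exp.2 (by linarith)
    have h2 : Real.exp (3 * x) ≤ Real.exp ((x : ℝ) ^ (C + 2) + 3 * x) := by
      apply Real.exp_le_exp.2
      have : 0 ≤ (x : ℝ) ^ (C + 2) := by positivity
      linarith
    have h3 : (3 : ℝ) ≤ Real.exp 3 := by
      have := Real.add_one_le_exp (3 : ℝ)
      linarith
    have h4 : Real.exp ((x : ℝ) ^ (C + 2) + 3 * x + 3) =
        Real.exp ((x : ℝ) ^ (C + 2) + 3 * x) * Real.exp 3 := Real.exp_add _ _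
    have h5 := Real.exp_le_exp.2 hbig
    have h6 : 0 < Real.exp ((x : ℝ) ^ (C + 2) + 3 * x) := Real.exp_pos _
    nlinarith
  have hd23 : (d : ℝ) ^ 2 ≤ (d : ℝ) ^ 3 := pow_le_pow_right₀ hd1 (by norm_num)
  have hZ : ∀ y, ((Z y).card : ℝ) ≤ Real.exp ((x : ℝ) ^ (C + 3)) := by
    intro y
    have h1 : ((Z y).card : ℝ) ≤ (d : ℝ) ^ 2 := by exact_mod_cast hC.card y
    have h2 : 0 < Real.exp ((x : ℝ) ^ (C + 2)) := Real.exp_pos _
    have h3 : 0 ≤ (d : ℝ) ^ 3 := by positivity
    linarith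
  have hxy : 1 ≤ x := by omega
  refine ⟨?_, ?_, ?_, ?_, ?_, ?_, ?_⟩
  · rintro (j | y | y) b v hv
    · exact h0.sup j b v hv
    · exact (Zt_bd d x K Z hd hxy y).2.2.2 v hv
    · simp only [gg2, (Zt_bd d x K Z hd hxy y).2.2.2 v hv, ite_self]
  · rintro (j | y | y) b v
    · exact h0.le j b v
    · obtain ⟨z1, z2, -, -⟩ := Zt_bd d x K Z hd hxy y
      simp only [gg2]
      rw [abs_of_nonneg (z1 v)]
      exact z2 v
    · obtain ⟨z1, z2, -, -⟩ := Zt_bd d x K Z hd hxy y
      simp only [gg2]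
      split_ifs
      · rw [abs_of_nonneg (z1 v)]
        exact z2 v
      · rw [abs_zero]
        positivity
  · rintro (j | y | y) b
    · exact h0.sum j b
    · obtain ⟨z1, -, z3, -⟩ := Zt_bd d x K Z hd hxy y
      simp only [gg2]
      rw [sum_congr rfl fun v _ => abs_of_nonneg (z1 v)]
      exact z3
    · obtain ⟨z1, -, z3, -⟩ := Zt_bd d x K Z hd hxy y
      refine le_trans (sum_le_sum fun v _ => ?_) z3
      simp only [gg2]
      split_ifs
      · rw [abs_of_nonneg (z1 v)]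
      · rw [abs_zero]
        exact z1 v
  · have hq : ∀ y, ∑ v, Zt d x K Z y v ^ 2 ≤ (x : ℝ) ^ K / d := by
      intro y
      obtain ⟨z1, z2, z3, -⟩ := Zt_bd d x K Z hd hxy y
      calc ∑ v, Zt d x K Z y v ^ 2 ≤ ∑ v, (x : ℝ) ^ K / d * Zt d x K Z y v := by
            refine sum_le_sum fun v _ => ?_
            rw [sq]
            exact mul_le_mul_of_nonneg_right (z2 v) (z1 v)
        _ = (x : ℝ) ^ K / d * ∑ v, Zt d x K Z y v := by rw [mul_sum]
        _ ≤ (x : ℝ) ^ K / d * 1 := mul_le_mul_of_nonneg_left z3 (by positivity)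
        _ = (x : ℝ) ^ K / d := mul_one _
    rintro (j | y | y) b
    · exact h0.sq j b
    · exact hq y
    · refine le_trans (sum_le_sum fun v _ => ?_) (hq y)
      simp only [gg2]
      split_ifs
      · exact le_rfl
      · rw [zero_pow two_ne_zero]
        exact sq_nonneg _
  · rintro (j | y | y)
    · exact h0.e0 j
    · simp only [eg2]
      positivity
    · simp only [eg2]
      positivity
  · rintro (j | y | y)
    · exact (h0.card j).trans hE1
    · exact hZ y
    · exact hZ y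
  · intro v
    have h1 : ((univ.filter (fun j => v ∈ sg2 (P := P) G S Z j)).card : ℝ) =
        ((univ.filter (fun j => v ∈ sg (P := P) G S j)).card : ℝ) +
          (((univ.filter (fun y => v ∈ Z y)).card : ℝ) + (univ.filter (fun y => v ∈ Z y)).card) := by
      simp only [card_filter, Fintype.sum_sum_type]
      push_cast
      rfl
    rw [h1]
    have h2 := h0.mul v
    have h3 : ((univ.filter (fun y => v ∈ Z y)).card : ℝ) ≤ (d : ℝ) ^ 3 := by
      exact_mod_cast hC.mul v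
    linarith

end defs

/-- **OWN2** -/
theorem stmt_OWN2 (hI : Stmt_ITER2.{u}) (hS : Stmt_SUBL2.{u}) (hH : Stmt_SSUB.{u})
    (hL : Stmt_LSTL.{u}) : Stmt_OWN2.{u} := by
  intro C K1 K
  obtain ⟨C1, N01, N1, x1, hI⟩ := hI (C + 2 * K1 + 8) (C + 3) K K1 (C + 2 * K1 + 10) (by omega)
  obtain ⟨C2, N2, x2, hS⟩ := hS C K K1
  obtain ⟨d3, hH⟩ := hH
  refine ⟨C1 + C2 + 1, N01, N1 + N2 + C + 10, x1 + x2 + d3 + 2000 + ⌈Real.exp 100⌉₊, ?_⟩
  intro V _ G d x P J R Y _ _ _ S g e Q Z Fb hx hlog hxN hP hPd hdeg hmis hSig hUpt hCap hFb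
  have hx1 : x1 ≤ x := by omega
  have hx2 : x2 ≤ x := by omega
  have hx16 : 16 ≤ x := by omega
  have hx16' : (16 : ℝ) ≤ x := by exact_mod_cast hx16
  have hx0 : (0 : ℝ) < x := by linarith
  have hd : 0 < d := lt_of_lt_of_le (Nat.pow_pos (by omega)) hxN
  have hd0 : (0 : ℝ) < d := by exact_mod_cast hd
  have hxN1 : x ^ N1 ≤ d := (Nat.pow_le_pow_right (by omega) (by omega)).trans hxN
  have hxN2 : x ^ N2 ≤ d := (Nat.pow_le_pow_right (by omega) (by omega)).trans hxN
  have hpow : ∀ n : ℕ, (0 : ℝ) < (x : ℝ) ^ n := fun n => by positivity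
  have hpow1 : ∀ n : ℕ, (1 : ℝ) ≤ (x : ℝ) ^ n := fun n => one_le_pow₀ (by linarith)
  have hdeg2 : ∀ v, ((nb G v).card : ℝ) ≤ 2 * d := by
    intro v
    have h1 := (abs_le.1 (hdeg v)).2
    have h2 : (d : ℝ) / (x : ℝ) ^ N01 ≤ d := div_le_self hd0.le (hpow1 _)
    linarith
  have hdeg2' : ∀ v, (nb G v).card ≤ 2 * d := fun v => by exact_mod_cast hdeg2 v
  have hCe : Real.exp ((x : ℝ) ^ C) ≤ Real.exp ((x : ℝ) ^ (C + 3)) :=
    Real.exp_le_exp.2 (pow_le_pow_right₀ (by linarith) (by omega))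
  have hsg := sig_gg2 G d x C K g Fb e S Z (by omega) hd hlog hP hdeg2 hSig hCap fun v => by
    have h1 := hFb v
    exact h1.trans (div_le_self hd0.le (hpow1 _))
  have hUpt' : Upt (d * (x : ℝ) ^ K) (Real.exp ((x : ℝ) ^ (C + 3))) Q :=
    ⟨hUpt.card, fun v => (hUpt.mul v).trans hCe⟩
  obtain ⟨U, c, Bd, i1, i2, i3, k4, k5, k6, i7, j1, j2, k3, k7, j5⟩ := hI G d x P
    ((J ⊕ (V ⊕ (J × Fin P))) ⊕ (Y ⊕ Y)) R Y
    (sg2 (P := P) G S Z) (gg2 G d x K g Fb Z) (eg2 (V := V) (P := P) (Y := Y) x K e) Q Z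
    (fun y => Sum.inr (Sum.inl y)) hx1 hlog hxN1 hP hPd hdeg hmis hsg hUpt' hCap
    (fun y b v => rfl)
  have i4 : ∀ j b, ∑ v ∈ U, |gg G d g Fb j b v| ≤ 4 / (x : ℝ) ^ (C + 2 * K1 + 8) := fun j b =>
    k4 (Sum.inl j) b
  have i5 : ∀ j, ∑ b, |∑ v ∈ univ.filter (fun v => v ∉ U ∧ c v = b), gg G d g Fb j b v| ≤
      1 / (d : ℝ) * ∑ b, |∑ v, gg G d g Fb j b v| +
        130 * Real.sqrt (eg (V := V) (P := P) e j) + 1 / (x : ℝ) ^ (C + 2 * K1 + 10) := fun j =>
    k5 (Sum.inl j)
  have i6 : ∀ j, ∑ v ∈ univ.filter (fun v => v ∉ U), |gg G d g Fb j (c v) v| ≤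
      1 / (d : ℝ) * ∑ b, ∑ v, |gg G d g Fb j b v| + 1 / (x : ℝ) ^ (C + 2 * K1 + 10) := fun j =>
    k6 (Sum.inl j)
  have j3 : ∀ j b, ∑ v ∈ Bd, |gg G d g Fb j b v| ≤ 1 / (x : ℝ) ^ (C + 2 * K1 + 10) := fun j b =>
    k3 (Sum.inl j) b
  have j4 : ∀ j, ∑ v ∈ Bd, |gg G d g Fb j (c v) v| ≤ 1 / (x : ℝ) ^ (C + 2 * K1 + 10) := fun j =>
    k7 (Sum.inl j)
  -- numbers
  set B : ℕ := C + 2 * K1 + 8 with hB
  have hxB1 : (x : ℝ) ^ B = (x : ℝ) ^ (C + 2 * K1 + 7) * x := by
    rw [hB, ← pow_succ]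
  have hxE : (1 : ℝ) / (x : ℝ) ^ (C + 2 * K1 + 10) ≤ 1 / (x : ℝ) ^ B :=
    one_div_le_one_div_of_le (hpow _) (pow_le_pow_right₀ (by linarith) (by omega))
  have hB16 : 16 * (1 / (x : ℝ) ^ B) ≤ 1 / (x : ℝ) ^ (C + 2 * K1 + 7) := by
    rw [hxB1, mul_one_div, div_le_div_iff₀ (by positivity) (hpow _)]
    nlinarith [hpow (C + 2 * K1 + 7)]
  have hxE2 : (1 : ℝ) / (x : ℝ) ^ (C + 2 * K1 + 10) ≤ 1 / (4 * x) := by
    refine one_div_le_one_div_of_le (by positivity) ?_
    calc 4 * (x : ℝ) ≤ (x : ℝ) ^ 2 := by nlinarith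
      _ ≤ _ := pow_le_pow_right₀ (by linarith) (by omega)
  have hP0 : 0 < P := by
    have h1 : (d : ℝ) / (x : ℝ) ^ B ≤ d / 2 :=
      div_le_div_of_nonneg_left hd0.le (by norm_num) (by
        have := hpow1 (C + 2 * K1 + 7)
        rw [hxB1]
        nlinarith)
    have h2 : (0 : ℝ) < P := by linarith
    exact_mod_cast h2
  -- the vertices to be coloured again
  set U0 : Finset V := U ∪ univ.filter (fun v => v ∉ U ∧ c v ∈ Fb v) with hU0
  set U' : Finset V := U0 ∪ Bd with hU'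
  have hU'mem : ∀ v, v ∉ U' ↔ (v ∉ U ∧ c v ∉ Fb v) ∧ v ∉ Bd := by
    intro v
    simp only [hU', hU0, mem_union, mem_filter, mem_univ, true_and]
    tauto
  have hUU : U ⊆ U' := subset_union_left.trans subset_union_left
  -- sums over U'
  have hsplit' : ∀ F : V → ℝ, (∀ v, 0 ≤ F v) → ∑ v ∈ U', F v ≤ ∑ v ∈ U0, F v + ∑ v ∈ Bd, F v := by
    intro F hF
    have h1 := sum_union_inter (s₁ := U0) (s₂ := Bd) (f := F)
    have h2 : 0 ≤ ∑ v ∈ U0 ∩ Bd, F v := sum_nonneg fun v _ => hF v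
    rw [hU']
    linarith
  have hsplit : ∀ F : V → ℝ, ∑ v ∈ U0, F v = ∑ v ∈ U, F v +
      ∑ v ∈ univ.filter (fun v => v ∉ U), if c v ∈ Fb v then F v else 0 := by
    intro F
    rw [hU0, sum_union]
    · congr 1
      rw [← sum_filter, filter_filter]
    · rw [Finset.disjoint_left]
      intro v hv hv'
      exact (mem_filter.1 hv').2.1 hv
  -- (i)
  have hi : ∀ v, ((nb G v ∩ U').card : ℝ) ≤ d / (x : ℝ) ^ (C + 2 * K1 + 7) := by
    intro v
    have h0 : ((nb G v ∩ U').card : ℝ) ≤ ((nb G v ∩ U0).card : ℝ) + (nb G v ∩ Bd).card := by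
      have h1 : nb G v ∩ U' ⊆ (nb G v ∩ U0) ∪ (nb G v ∩ Bd) := by
        rw [hU', inter_union_distrib_left]
      exact_mod_cast (card_le_card h1).trans (card_union_le _ _)
    have h1 : ((nb G v ∩ U0).card : ℝ) = ∑ w ∈ U0, if w ∈ nb G v then (1 : ℝ) else 0 := by
      rw [← sum_filter, sum_const, nsmul_eq_mul, mul_one]
      congr 2
      ext w
      simp only [mem_inter, mem_filter]
      tauto
    have h2 : ((nb G v ∩ U).card : ℝ) = ∑ w ∈ U, if w ∈ nb G v then (1 : ℝ) else 0 := by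
      rw [← sum_filter, sum_const, nsmul_eq_mul, mul_one]
      congr 2
      ext w
      simp only [mem_inter, mem_filter]
      tauto
    refine h0.trans ?_
    rw [h1, hsplit, ← h2]
    have h3 := i6 (Sum.inr (Sum.inl v))
    have h4 : ∑ w ∈ univ.filter (fun w => w ∉ U), |gg G d g Fb (Sum.inr (Sum.inl v)) (c w) w| =
        1 / (2 * d) * ∑ w ∈ univ.filter (fun w => w ∉ U),
          if c w ∈ Fb w then (if w ∈ nb G v then (1 : ℝ) else 0) else 0 := by
      rw [mul_sum]
      refine sum_congr rfl fun w _ => ?_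
      simp only [gg]
      by_cases hw : w ∈ nb G v
      · by_cases hc : c w ∈ Fb w
        · simp only [hw, hc, and_self, if_true, mul_one]
          exact abs_of_pos (by positivity)
        · simp only [hw, hc, and_false, if_false, mul_zero, abs_zero]
      · simp only [hw, false_and, if_false, ite_self, mul_zero, abs_zero]
    have h5 : ∑ b, ∑ w, |gg G d g Fb (Sum.inr (Sum.inl v)) b w| ≤ d / (x : ℝ) ^ B := by
      rw [sum_comm]
      have h6 : ∀ w, ∑ b, |gg G d g Fb (Sum.inr (Sum.inl v)) b w| ≤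
          if w ∈ nb G v then 1 / (2 * d) * (d / (x : ℝ) ^ B) else 0 := by
        intro w
        by_cases hw : w ∈ nb G v
        · rw [if_pos hw]
          have h7 : ∀ b, |gg G d g Fb (Sum.inr (Sum.inl v)) b w| =
              if b ∈ Fb w then 1 / (2 * (d : ℝ)) else 0 := by
            intro b
            simp only [gg, hw, true_and]
            split_ifs
            · exact abs_of_pos (by positivity)
            · exact abs_zero
          rw [sum_congr rfl fun b _ => h7 b, sum_ite_mem, univ_inter, sum_const, nsmul_eq_mul,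
            mul_comm]
          exact mul_le_mul_of_nonneg_left (hFb w) (by positivity)
        · rw [if_neg hw]
          refine le_of_eq (sum_eq_zero fun b _ => ?_)
          simp only [gg, hw, false_and, if_false, abs_zero]
      refine (sum_le_sum fun w _ => h6 w).trans ?_
      rw [sum_ite_mem, univ_inter, sum_const, nsmul_eq_mul]
      have h8 := hdeg2 v
      have h9 : 0 ≤ 1 / (2 * (d : ℝ)) * (d / (x : ℝ) ^ B) := by positivity
      calc ((nb G v).card : ℝ) * (1 / (2 * d) * (d / (x : ℝ) ^ B)) ≤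
          2 * d * (1 / (2 * d) * (d / (x : ℝ) ^ B)) := mul_le_mul_of_nonneg_right h8 h9
        _ = d / (x : ℝ) ^ B := by
            field_simp
    have h10 : 1 / (d : ℝ) * ∑ b, ∑ w, |gg G d g Fb (Sum.inr (Sum.inl v)) b w| ≤
        1 / (x : ℝ) ^ B := by
      calc 1 / (d : ℝ) * ∑ b, ∑ w, |gg G d g Fb (Sum.inr (Sum.inl v)) b w| ≤
          1 / (d : ℝ) * (d / (x : ℝ) ^ B) := mul_le_mul_of_nonneg_left h5 (by positivity)
        _ = 1 / (x : ℝ) ^ B := by
            field_simp
    rw [h4] at h3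
    have h11 := i2 v
    set Y := ∑ w ∈ univ.filter (fun w => w ∉ U),
      if c w ∈ Fb w then (if w ∈ nb G v then (1 : ℝ) else 0) else 0 with hY
    have h12 : 1 / (2 * (d : ℝ)) * Y ≤ 2 * (1 / (x : ℝ) ^ B) := by linarith
    have h13 : Y ≤ 4 * d * (1 / (x : ℝ) ^ B) := by
      have h14 : Y = 2 * d * (1 / (2 * (d : ℝ)) * Y) := by
        field_simp
      rw [h14]
      calc 2 * (d : ℝ) * (1 / (2 * (d : ℝ)) * Y) ≤ 2 * d * (2 * (1 / (x : ℝ) ^ B)) :=
          mul_le_mul_of_nonneg_left h12 (by positivity)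
        _ = _ := by ring
    have h15 : 4 * (d : ℝ) / (x : ℝ) ^ B = 4 * d * (1 / (x : ℝ) ^ B) := by ring
    rw [h15] at h11
    have h16 : (d : ℝ) / (x : ℝ) ^ (C + 2 * K1 + 7) = d * (1 / (x : ℝ) ^ (C + 2 * K1 + 7)) := by
      ring
    rw [h16]
    have h17 := j2 v
    have h18 : (d : ℝ) / (x : ℝ) ^ (C + 2 * K1 + 10) = d * (1 / (x : ℝ) ^ (C + 2 * K1 + 10)) := by
      ring
    rw [h18] at h17
    have h19 := mul_le_mul_of_nonneg_left hxE hd0.le
    have h20 := mul_le_mul_of_nonneg_left hB16 hd0.le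
    have h21 : 0 ≤ (d : ℝ) * (1 / (x : ℝ) ^ B) := by positivity
    linarith
  -- (ii)
  set L : V → Finset (Fin P) := fun v => univ.filter (fun b => b ∉ Fb v ∧
    ∀ w ∈ nb G v, w ∉ U' → c w ≠ b) with hLdef
  have hii : ∀ v ∈ U', (d : ℝ) / (2 * (x : ℝ) ^ (2 * K1 + 1)) ≤ ((L v).card : ℝ) := by
    intro v _
    have h1 := i3 v
    have h2 : univ.filter (fun b => ∀ w ∈ nb G v, w ∉ U → c w ≠ b) ⊆ L v ∪ Fb v := by
      intro b hb
      rw [mem_filter] at hb
      rw [mem_union]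
      by_cases hbF : b ∈ Fb v
      · exact Or.inr hbF
      · left
        simp only [hLdef, mem_filter, mem_univ, true_and]
        exact ⟨hbF, fun w hw hwU => hb.2 w hw fun h => hwU (hUU h)⟩
    have h3 : ((univ.filter (fun b => ∀ w ∈ nb G v, w ∉ U → c w ≠ b)).card : ℝ) ≤
        (L v).card + (Fb v).card := by
      exact_mod_cast (card_le_card h2).trans (card_union_le _ _)
    have h4 := hFb v
    have h5 : (d : ℝ) / (x : ℝ) ^ B ≤ d / (2 * (x : ℝ) ^ (2 * K1 + 1)) := by
      refine div_le_div_of_nonneg_left hd0.le (by positivity) ?_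
      calc 2 * (x : ℝ) ^ (2 * K1 + 1) ≤ x * (x : ℝ) ^ (2 * K1 + 1) :=
          mul_le_mul_of_nonneg_right (by linarith) (hpow _).le
        _ = (x : ℝ) ^ (2 * K1 + 2) := by ring
        _ ≤ (x : ℝ) ^ B := pow_le_pow_right₀ (by linarith) (by omega)
    have h6 : (d : ℝ) / (x : ℝ) ^ (2 * K1 + 1) = 2 * (d / (2 * (x : ℝ) ^ (2 * K1 + 1))) := by
      field_simp
    linarith
  -- (iii)
  have hiii : ∀ j b, ∑ v ∈ U', |g j b v| ≤ 1 / (x : ℝ) ^ (C + 2 * K1 + 7) := by
    intro j b
    refine (hsplit' _ fun v => abs_nonneg _).trans ?_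
    rw [hsplit]
    have k1 := j3 (Sum.inl j) b
    have k2 := j3 (Sum.inr (Sum.inr (j, b))) b
    have k3' : ∑ v ∈ Bd, |g j b v| = ∑ v ∈ Bd, |gg G d g Fb (Sum.inl j) b v| +
        ∑ v ∈ Bd, |gg G d g Fb (Sum.inr (Sum.inr (j, b))) b v| := by
      rw [← sum_add_distrib]
      refine sum_congr rfl fun v _ => ?_
      simp only [gg]
      split_ifs
      · rw [abs_zero, abs_abs, zero_add]
      · rw [abs_zero, add_zero]
    have h1 := i4 (Sum.inl j) b
    have h2 := i4 (Sum.inr (Sum.inr (j, b))) b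
    have h3 : ∑ v ∈ U, |g j b v| = ∑ v ∈ U, |gg G d g Fb (Sum.inl j) b v| +
        ∑ v ∈ U, |gg G d g Fb (Sum.inr (Sum.inr (j, b))) b v| := by
      rw [← sum_add_distrib]
      refine sum_congr rfl fun v _ => ?_
      simp only [gg]
      split_ifs
      · rw [abs_zero, abs_abs, zero_add]
      · rw [abs_zero, add_zero]
    have h4 := i6 (Sum.inr (Sum.inr (j, b)))
    have h5 : ∑ v ∈ univ.filter (fun v => v ∉ U), (if c v ∈ Fb v then |g j b v| else 0) =
        ∑ v ∈ univ.filter (fun v => v ∉ U),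
          |gg G d g Fb (Sum.inr (Sum.inr (j, b))) (c v) v| := by
      refine sum_congr rfl fun v _ => ?_
      simp only [gg]
      split_ifs
      · rw [abs_abs]
      · rw [abs_zero]
    have h6 : ∑ b', ∑ v, |gg G d g Fb (Sum.inr (Sum.inr (j, b))) b' v| ≤ d / (x : ℝ) ^ B := by
      rw [sum_comm]
      have h7 : ∀ v, ∑ b', |gg G d g Fb (Sum.inr (Sum.inr (j, b))) b' v| ≤
          |g j b v| * (d / (x : ℝ) ^ B) := by
        intro v
        have h8 : ∀ b', |gg G d g Fb (Sum.inr (Sum.inr (j, b))) b' v| =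
            if b' ∈ Fb v then |g j b v| else 0 := by
          intro b'
          simp only [gg]
          split_ifs
          · rw [abs_abs]
          · rw [abs_zero]
        rw [sum_congr rfl fun b' _ => h8 b', sum_ite_mem, univ_inter, sum_const, nsmul_eq_mul,
          mul_comm]
        exact mul_le_mul_of_nonneg_left (hFb v) (abs_nonneg _)
      refine (sum_le_sum fun v _ => h7 v).trans ?_
      rw [← sum_mul]
      have h9 := hSig.sum j b
      have h10 : 0 ≤ (d : ℝ) / (x : ℝ) ^ B := by positivity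
      nlinarith
    have h10 : 1 / (d : ℝ) * ∑ b', ∑ v, |gg G d g Fb (Sum.inr (Sum.inr (j, b))) b' v| ≤
        1 / (x : ℝ) ^ B := by
      calc 1 / (d : ℝ) * ∑ b', ∑ v, |gg G d g Fb (Sum.inr (Sum.inr (j, b))) b' v| ≤
          1 / (d : ℝ) * (d / (x : ℝ) ^ B) := mul_le_mul_of_nonneg_left h6 (by positivity)
        _ = 1 / (x : ℝ) ^ B := by
            field_simp
    rw [h5, h3]
    have h11 : (4 : ℝ) / (x : ℝ) ^ B = 4 * (1 / (x : ℝ) ^ B) := by ring
    rw [h11] at h1 h2
    have h12 : (0 : ℝ) ≤ 1 / (x : ℝ) ^ B := by positivity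
    linarith
  -- (iv)
  have hZt : ∀ y v, 0 ≤ Zt d x K Z y v := by
    intro y v
    unfold Zt
    split_ifs
    · positivity
    · exact le_rfl
  have hiv : ∀ y, ((Z y ∩ U').card : ℝ) ≤ (d + (Z y).card) / (x : ℝ) ^ (C + 2 * K1 + 7) := by
    intro y
    set mx : ℝ := max ((Z y).card : ℝ) ((d : ℝ) / (x : ℝ) ^ K) with hmx
    have hmx0 : 0 < mx := lt_of_lt_of_le (div_pos hd0 (hpow K)) (le_max_right _ _)
    have hmxle : mx ≤ d + (Z y).card := by
      have h8 : (0 : ℝ) ≤ (Z y).card := Nat.cast_nonneg _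
      refine max_le (by linarith) ?_
      have h7 : (d : ℝ) / (x : ℝ) ^ K ≤ d := div_le_self hd0.le (hpow1 K)
      linarith
    have h1 : ∑ v ∈ U', Zt d x K Z y v = ((Z y ∩ U').card : ℝ) * (1 / mx) := by
      unfold Zt
      rw [← sum_filter, sum_const, nsmul_eq_mul]
      congr 2
      apply congrArg
      ext v
      simp only [mem_filter, mem_inter]
      tauto
    have h2 := hsplit' (fun v => Zt d x K Z y v) (hZt y)
    rw [hsplit] at h2
    have b0 : Fin P := ⟨0, hP0⟩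
    have h3 : ∑ v ∈ U, Zt d x K Z y v ≤ 4 / (x : ℝ) ^ B := by
      refine le_trans (le_of_eq (sum_congr rfl fun v _ => ?_)) (k4 (Sum.inr (Sum.inl y)) b0)
      show _ = |Zt d x K Z y v|
      rw [abs_of_nonneg (hZt y v)]
    have h4 : ∑ v ∈ Bd, Zt d x K Z y v ≤ 1 / (x : ℝ) ^ (C + 2 * K1 + 10) := by
      refine le_trans (le_of_eq (sum_congr rfl fun v _ => ?_)) (k3 (Sum.inr (Sum.inl y)) b0)
      show _ = |Zt d x K Z y v|
      rw [abs_of_nonneg (hZt y v)]
    have hz1 : ∑ v, Zt d x K Z y v ≤ 1 := by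
      have h5 : ∑ v, Zt d x K Z y v = ((Z y).card : ℝ) * (1 / mx) := by
        unfold Zt
        rw [← sum_filter, sum_const, nsmul_eq_mul]
        congr 2
        apply congrArg
        ext v
        simp
      rw [h5, mul_one_div, div_le_one hmx0]
      exact le_max_left _ _
    have h5 : ∑ v ∈ univ.filter (fun v => v ∉ U), (if c v ∈ Fb v then Zt d x K Z y v else 0) ≤
        2 * (1 / (x : ℝ) ^ B) := by
      have h6 := k6 (Sum.inr (Sum.inr y))
      have h7 : ∑ v ∈ univ.filter (fun v => v ∉ U), (if c v ∈ Fb v then Zt d x K Z y v else 0) =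
          ∑ v ∈ univ.filter (fun v => v ∉ U),
            |gg2 G d x K g Fb Z (Sum.inr (Sum.inr y)) (c v) v| := by
        refine sum_congr rfl fun v _ => ?_
        simp only [gg2]
        split_ifs
        · rw [abs_of_nonneg (hZt y v)]
        · rw [abs_zero]
      have h8 : ∑ b, ∑ v, |gg2 G d x K g Fb Z (Sum.inr (Sum.inr y)) b v| ≤
          d / (x : ℝ) ^ B := by
        rw [sum_comm]
        have h9 : ∀ v, ∑ b, |gg2 G d x K g Fb Z (Sum.inr (Sum.inr y)) b v| ≤
            Zt d x K Z y v * (d / (x : ℝ) ^ B) := by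
          intro v
          have h10 : ∀ b, |gg2 G d x K g Fb Z (Sum.inr (Sum.inr y)) b v| =
              if b ∈ Fb v then Zt d x K Z y v else 0 := by
            intro b
            simp only [gg2]
            split_ifs
            · rw [abs_of_nonneg (hZt y v)]
            · rw [abs_zero]
          rw [sum_congr rfl fun b _ => h10 b, sum_ite_mem, univ_inter, sum_const, nsmul_eq_mul,
            mul_comm]
          exact mul_le_mul_of_nonneg_left (hFb v) (hZt y v)
        refine (sum_le_sum fun v _ => h9 v).trans ?_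
        rw [← sum_mul]
        have h10 : 0 ≤ (d : ℝ) / (x : ℝ) ^ B := by positivity
        nlinarith
      have h9 : 1 / (d : ℝ) * ∑ b, ∑ v, |gg2 G d x K g Fb Z (Sum.inr (Sum.inr y)) b v| ≤
          1 / (x : ℝ) ^ B := by
        calc 1 / (d : ℝ) * ∑ b, ∑ v, |gg2 G d x K g Fb Z (Sum.inr (Sum.inr y)) b v| ≤
            1 / (d : ℝ) * (d / (x : ℝ) ^ B) := mul_le_mul_of_nonneg_left h8 (by positivity)
          _ = 1 / (x : ℝ) ^ B := by
              field_simp
      rw [h7]
      linarith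
    have h6 : ((Z y ∩ U').card : ℝ) * (1 / mx) ≤ 1 / (x : ℝ) ^ (C + 2 * K1 + 7) := by
      rw [← h1]
      have h7 : (4 : ℝ) / (x : ℝ) ^ B = 4 * (1 / (x : ℝ) ^ B) := by ring
      rw [h7] at h3
      have h8 : (0 : ℝ) ≤ 1 / (x : ℝ) ^ B := by positivity
      linarith
    rw [mul_one_div, div_le_iff₀ hmx0] at h6
    refine h6.trans ?_
    rw [div_mul_eq_mul_div, one_mul]
    exact div_le_div_of_nonneg_right hmxle (hpow _).le
  -- sublists
  obtain ⟨s, s1, s2, s3, s4, s5⟩ := hS G d x P J R Y S g Q Z U' L hx2 hlog hxN2 hP hP0 hdeg2' hi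
    hii hSig.sup hSig.le hSig.card hSig.mul hiii hUpt hCap hiv
  -- small sublists
  have hl0 : 0 < 32 * x ^ (C + 3) := Nat.mul_pos (by norm_num) (Nat.pow_pos (by omega))
  have hld : 32 * x ^ (C + 3) ≤ d := by
    refine le_trans ?_ hxN
    calc 32 * x ^ (C + 3) ≤ x * x ^ (C + 3) := Nat.mul_le_mul_right _ (by omega)
      _ = x ^ (C + 4) := by ring
      _ ≤ _ := Nat.pow_le_pow_right (by omega) (by omega)
  have hxd : x ≤ d := by
    refine le_trans ?_ hxN
    calc x = x ^ 1 := (pow_one x).symm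
      _ ≤ _ := Nat.pow_le_pow_right (by omega) (by omega)
  have hxdr : (x : ℝ) ≤ d := by exact_mod_cast hxd
  have hlog100 : 100 ≤ Real.log d := by
    rw [Real.le_log_iff_exp_le hd0]
    refine (Nat.le_ceil _).trans (le_trans ?_ hxdr)
    have : ⌈Real.exp 100⌉₊ ≤ x := by omega
    exact_mod_cast this
  set mm : ℕ := ⌈1000 * Real.log d⌉₊ with hmm
  have hm1 : 1000 * Real.log d ≤ mm := Nat.le_ceil _
  have hm2 : (mm : ℝ) ≤ 1000 * Real.log d + 1 :=
    (Nat.ceil_lt_add_one (show 0 ≤ 1000 * Real.log d by linarith)).le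
  have hx2000 : (2000 : ℝ) ≤ x := by
    have : 2000 ≤ x := by omega
    exact_mod_cast this
  have hmd : mm ≤ d := by
    have h1 : (mm : ℝ) ≤ d := by
      have h2 : (x : ℝ) ^ 2 ≤ d := by
        have h3 : x ^ 2 ≤ d := (Nat.pow_le_pow_right (by omega) (by omega)).trans hxN
        exact_mod_cast h3
      nlinarith
    exact_mod_cast h1
  have hd3 : d3 ≤ d := by omega
  obtain ⟨hh, hh1, hh2⟩ := hH G d P (32 * x ^ (C + 3)) mm Z U' s hd3 hl0 hld hP hdeg2' hCap hm1 hmd
    (fun v hv b => by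
      have h1 := s2 v hv b
      omega)
    (fun y b => (s5 y b).trans (mul_le_mul_of_nonneg_right (by
      push_cast
      have := hpow (C + 3)
      linarith) (by positivity)))
  have hmm0 : 0 < mm := by
    have h1 : (0 : ℝ) < mm := by linarith
    exact_mod_cast h1
  obtain ⟨f0, hf0⟩ := hL G P (32 * mm) mm U' (fun v i => s v (hh v i))
    (Nat.mul_pos (by norm_num) hmm0) le_rfl hh1
  set f : V → Fin (32 * x ^ (C + 3)) := fun v => hh v (f0 v) with hfdef
  have hf : ∀ v ∈ U', ∀ w ∈ U', G.Adj v w → s v (f v) ≠ s w (f w) := hf0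
  set c' : V → Fin P := fun v => if v ∈ U' then s v (f v) else c v with hc'
  have hcU : ∀ v, v ∈ U' → c' v = s v (f v) := fun v hv => if_pos hv
  have hcN : ∀ v, v ∉ U' → c' v = c v := fun v hv => if_neg hv
  have hsL : ∀ v ∈ U', c' v ∉ Fb v ∧ ∀ w ∈ nb G v, w ∉ U' → c w ≠ c' v := by
    intro v hv
    rw [hcU v hv]
    have := s1 v hv (f v)
    simp only [hLdef, mem_filter, mem_univ, true_and] at this
    exact this
  -- the sum over U'
  have hU4 : ∀ j, ∑ v ∈ U', |g j (c' v) v| ≤ 1 / (4 * x) := by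
    intro j
    refine le_trans (sum_le_sum fun v hv => ?_) (s3 j)
    rw [hcU v hv]
    exact single_le_sum (f := fun i => |g j (s v i) v|) (fun i _ => abs_nonneg _)
      (mem_univ (f v))
  have hxx : (1 : ℝ) / (4 * x) = 1 / x / 4 := by
    field_simp
  have h1x : (0 : ℝ) < 1 / x := by positivity
  refine ⟨c', ?_, ?_, ?_, ?_, ?_, ?_⟩
  · intro v w hvw
    by_cases hv : v ∈ U'
    · by_cases hw : w ∈ U'
      · rw [hcU v hv, hcU w hw]
        exact hf v hv w hw hvw
      · rw [hcN w hw]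
        exact ((hsL v hv).2 w (by simpa [nb] using hvw) hw).symm
    · by_cases hw : w ∈ U'
      · rw [hcN v hv]
        exact (hsL w hw).2 v (by simpa [nb] using hvw.symm) hv
      · rw [hcN v hv, hcN w hw]
        exact i1 v w ((hU'mem v).1 hv).1.1 ((hU'mem w).1 hw).1.1 hvw
  · intro v
    by_cases hv : v ∈ U'
    · exact (hsL v hv).1
    · rw [hcN v hv]
      exact ((hU'mem v).1 hv).1.2
  · intro j
    have h1 := i5 (Sum.inl j)
    have h2 : ∀ b, |∑ v ∈ univ.filter (fun v => c' v = b), g j b v| ≤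
        |∑ v ∈ univ.filter (fun v => v ∉ U ∧ c v = b), gg G d g Fb (Sum.inl j) b v| +
          (∑ v ∈ Bd, if c v = b then |gg G d g Fb (Sum.inl j) b v| else 0) +
          ∑ v ∈ U', if c' v = b then |g j b v| else 0 := by
      intro b
      have h3 : ∑ v ∈ univ.filter (fun v => c' v = b), g j b v =
          ∑ v ∈ univ.filter (fun v => v ∉ U ∧ c v = b), gg G d g Fb (Sum.inl j) b v -
            (∑ v ∈ Bd, if c v = b then gg G d g Fb (Sum.inl j) b v else 0) +
            ∑ v ∈ U', if c' v = b then g j b v else 0 := by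
        rw [sum_filter, sum_filter]
        have h4' : ∑ v ∈ Bd, (if c v = b then gg G d g Fb (Sum.inl j) b v else 0) =
            ∑ v, if v ∈ Bd then (if c v = b then gg G d g Fb (Sum.inl j) b v else 0) else 0 := by
          rw [sum_ite_mem, univ_inter]
        have h4 : ∑ v ∈ U', (if c' v = b then g j b v else 0) =
            ∑ v, if v ∈ U' then (if c' v = b then g j b v else 0) else 0 := by
          rw [sum_ite_mem, univ_inter]
        rw [h4, h4', ← sum_sub_distrib, ← sum_add_distrib]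
        refine sum_congr rfl fun v _ => ?_
        by_cases hv : v ∈ U'
        · simp only [hv, if_true]
          have h5 : (if v ∉ U ∧ c v = b then gg G d g Fb (Sum.inl j) b v else 0) =
              if v ∈ Bd then (if c v = b then gg G d g Fb (Sum.inl j) b v else 0) else 0 := by
            by_cases hvB : v ∈ Bd
            · rw [if_pos hvB]
              have hvU := j1 v hvB
              by_cases h6 : c v = b
              · rw [if_pos ⟨hvU, h6⟩, if_pos h6]
              · rw [if_neg fun h => h6 h.2, if_neg h6]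
            · rw [if_neg hvB]
              by_cases h6 : v ∉ U ∧ c v = b
              · rw [if_pos h6]
                have h7 : c v ∈ Fb v := by
                  by_contra h8
                  exact (hU'mem v).2 ⟨⟨h6.1, h8⟩, hvB⟩ hv
                rw [h6.2] at h7
                simp only [gg, if_pos h7]
              · rw [if_neg h6]
          rw [h5, sub_self, zero_add]
        · have hv' := (hU'mem v).1 hv
          simp only [hv, if_false, add_zero, hcN v hv, if_neg hv'.2, sub_zero]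
          by_cases h6 : c v = b
          · have h7 : b ∉ Fb v := h6 ▸ hv'.1.2
            rw [if_pos h6, if_pos ⟨hv'.1.1, h6⟩]
            simp only [gg, if_neg h7]
          · rw [if_neg h6, if_neg fun h => h6 h.2]
      have habs : ∀ (W : Finset V) (p : V → Prop) [DecidablePred p] (F : V → ℝ),
          |∑ v ∈ W, if p v then F v else 0| ≤ ∑ v ∈ W, if p v then |F v| else 0 := by
        intro W p _ F
        refine (abs_sum_le_sum_abs _ _).trans (sum_le_sum fun v _ => ?_)
        split_ifs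
        · exact le_rfl
        · rw [abs_zero]
      rw [h3]
      refine (abs_add_le _ _).trans (add_le_add ?_ (habs U' (fun v => c' v = b) (g j b)))
      exact (abs_sub _ _).trans (add_le_add le_rfl
        (habs Bd (fun v => c v = b) (gg G d g Fb (Sum.inl j) b)))
    have h3 : ∑ b, ∑ v ∈ U', (if c' v = b then |g j b v| else 0) = ∑ v ∈ U', |g j (c' v) v| := by
      rw [sum_comm]
      refine sum_congr rfl fun v _ => ?_
      rw [Finset.sum_ite_eq, if_pos (mem_univ _)]
    have h3B : ∑ b, ∑ v ∈ Bd, (if c v = b then |gg G d g Fb (Sum.inl j) b v| else 0) =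
        ∑ v ∈ Bd, |gg G d g Fb (Sum.inl j) (c v) v| := by
      rw [sum_comm]
      refine sum_congr rfl fun v _ => ?_
      rw [Finset.sum_ite_eq, if_pos (mem_univ _)]
    have h4 : ∀ b, |∑ v, gg G d g Fb (Sum.inl j) b v| ≤ |∑ v, g j b v| +
        ∑ v ∈ univ.filter (fun v => b ∈ Fb v), |g j b v| := by
      intro b
      have h5 : ∑ v, gg G d g Fb (Sum.inl j) b v = ∑ v, g j b v -
          ∑ v ∈ univ.filter (fun v => b ∈ Fb v), g j b v := by
        rw [sum_filter, ← sum_sub_distrib]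
        refine sum_congr rfl fun v _ => ?_
        simp only [gg]
        split_ifs
        · rw [sub_self]
        · rw [sub_zero]
      rw [h5]
      refine (abs_sub _ _).trans (add_le_add le_rfl (abs_sum_le_sum_abs _ _))
    have h5 : 1 / (d : ℝ) * ∑ b, |∑ v, gg G d g Fb (Sum.inl j) b v| ≤
        1 / (d : ℝ) * ∑ b, (|∑ v, g j b v| +
          ∑ v ∈ univ.filter (fun v => b ∈ Fb v), |g j b v|) :=
      mul_le_mul_of_nonneg_left (sum_le_sum fun b _ => h4 b) (by positivity)
    have h6 : ∑ b, |∑ v ∈ univ.filter (fun v => c' v = b), g j b v| ≤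
        ∑ b, |∑ v ∈ univ.filter (fun v => v ∉ U ∧ c v = b), gg G d g Fb (Sum.inl j) b v| +
          ∑ v ∈ Bd, |gg G d g Fb (Sum.inl j) (c v) v| + ∑ v ∈ U', |g j (c' v) v| := by
      rw [← h3, ← h3B, ← sum_add_distrib, ← sum_add_distrib]
      exact sum_le_sum fun b _ => h2 b
    have h7 := hU4 j
    have h8 := j4 (Sum.inl j)
    simp only [eg] at h1
    linarith
  · intro j
    have h1 := i6 (Sum.inl j)
    have h2 : ∑ v, |g j (c' v) v| = ∑ v ∈ univ.filter (fun v => v ∉ U'), |g j (c v) v| +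
        ∑ v ∈ U', |g j (c' v) v| := by
      have h3 := sum_filter_add_sum_filter_not univ (fun v => v ∈ U') (fun v => |g j (c' v) v|)
      rw [← h3, add_comm]
      congr 1
      · refine sum_congr rfl fun v hv => ?_
        rw [hcN v (mem_filter.1 hv).2]
      · refine sum_congr ?_ fun _ _ => rfl
        ext v
        simp
    have h3 : ∑ v ∈ univ.filter (fun v => v ∉ U'), |g j (c v) v| ≤
        ∑ v ∈ univ.filter (fun v => v ∉ U), |gg G d g Fb (Sum.inl j) (c v) v| := by
      have h4 : ∀ v ∈ univ.filter (fun v => v ∉ U'), |g j (c v) v| =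
          |gg G d g Fb (Sum.inl j) (c v) v| := by
        intro v hv
        have hv' := (hU'mem v).1 (mem_filter.1 hv).2
        simp only [gg, if_neg hv'.1.2]
      rw [sum_congr rfl h4]
      refine sum_le_sum_of_subset_of_nonneg ?_ fun v _ _ => abs_nonneg _
      intro v hv
      exact mem_filter.2 ⟨mem_univ _, ((hU'mem v).1 (mem_filter.1 hv).2).1.1⟩
    have h4 : ∑ b, ∑ v, |gg G d g Fb (Sum.inl j) b v| ≤ ∑ b, ∑ v, |g j b v| := by
      refine sum_le_sum fun b _ => sum_le_sum fun v _ => ?_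
      simp only [gg]
      split_ifs
      · rw [abs_zero]
        exact abs_nonneg _
      · exact le_rfl
    have h5 : 1 / (d : ℝ) * ∑ b, ∑ v, |gg G d g Fb (Sum.inl j) b v| ≤
        1 / (d : ℝ) * ∑ b, ∑ v, |g j b v| := mul_le_mul_of_nonneg_left h4 (by positivity)
    have h7 := hU4 j
    rw [h2]
    linarith
  · intro q
    have h1 := i7 q
    have h2 := s4 q
    have h3 : (Q q).filter (fun y => c' y.2 = y.1) ⊆
        (Q q).filter (fun y => y.2 ∉ U ∧ c y.2 = y.1) ∪
        (((U' ×ˢ (univ : Finset (Fin (32 * x ^ (C + 3))))).filter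
          (fun y => (s y.1 y.2, y.1) ∈ Q q)).image (fun y => (s y.1 y.2, y.1))) := by
      rintro ⟨b, v⟩ hy
      rw [mem_filter] at hy
      obtain ⟨hy1, hy2⟩ := hy
      simp only at hy2
      rw [mem_union]
      by_cases hv : v ∈ U'
      · right
        rw [hcU v hv] at hy2
        rw [mem_image]
        refine ⟨(v, f v), ?_, ?_⟩
        · rw [mem_filter, mem_product]
          refine ⟨⟨hv, mem_univ _⟩, ?_⟩
          simp only [hy2]
          exact hy1
        · simp only [hy2]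
      · left
        rw [hcN v hv] at hy2
        exact mem_filter.2 ⟨hy1, ((hU'mem v).1 hv).1.1, hy2⟩
    have h4 : (((Q q).filter (fun y => c' y.2 = y.1)).card : ℝ) ≤
        (((Q q).filter (fun y => y.2 ∉ U ∧ c y.2 = y.1)).card : ℝ) +
        (((U' ×ˢ (univ : Finset (Fin (32 * x ^ (C + 3))))).filter
          (fun y => (s y.1 y.2, y.1) ∈ Q q)).card : ℝ) := by
      exact_mod_cast (card_le_card h3).trans ((card_union_le _ _).trans
        (Nat.add_le_add_left card_image_le _))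
    have h5 : (x : ℝ) ^ C1 ≤ (x : ℝ) ^ (C1 + C2) := pow_le_pow_right₀ (by linarith) (by omega)
    have h6 : (x : ℝ) ^ C2 ≤ (x : ℝ) ^ (C1 + C2) := pow_le_pow_right₀ (by linarith) (by omega)
    have h7 : (x : ℝ) ^ (C1 + C2 + 1) = (x : ℝ) ^ (C1 + C2) * x := by ring
    rw [h7]
    nlinarith [hpow (C1 + C2)]
  · intro y b
    have h1 := j5 y b
    have h2 := hh2 y b
    have h3 : (Z y).filter (fun v => c' v = b) ⊆
        (Z y).filter (fun v => v ∉ U ∧ v ∉ Bd ∧ c v = b) ∪
        ((((Z y ∩ U') ×ˢ (univ : Finset (Fin (32 * mm)))).filter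
          (fun p => s p.1 (hh p.1 p.2) = b)).image (fun p => p.1)) := by
      intro v hv
      rw [mem_filter] at hv
      rw [mem_union]
      by_cases hvU : v ∈ U'
      · right
        rw [mem_image]
        refine ⟨(v, f0 v), ?_, rfl⟩
        rw [mem_filter, mem_product, mem_inter]
        refine ⟨⟨⟨hv.1, hvU⟩, mem_univ _⟩, ?_⟩
        have h4 := hv.2
        rw [hcU v hvU] at h4
        exact h4
      · left
        have h4 := (hU'mem v).1 hvU
        rw [mem_filter]
        have h5 := hv.2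
        rw [hcN v hvU] at h5
        exact ⟨hv.1, h4.1.1, h4.2, h5⟩
    have h4 : (((Z y).filter (fun v => c' v = b)).card : ℝ) ≤
        (((Z y).filter (fun v => v ∉ U ∧ v ∉ Bd ∧ c v = b)).card : ℝ) +
        ((((Z y ∩ U') ×ˢ (univ : Finset (Fin (32 * mm)))).filter
          (fun p => s p.1 (hh p.1 p.2) = b)).card : ℝ) := by
      exact_mod_cast (card_le_card h3).trans ((card_union_le _ _).trans
        (Nat.add_le_add_left card_image_le _))
    have h5 : 0 ≤ 1 + ((Z y).card : ℝ) / d := by positivity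
    have h6 : 200000 * (Real.log d + 1) + 64 * mm ≤ Real.log d ^ 4 := by
      have h7 : Real.log d * 1000000 ≤ Real.log d ^ 4 := by
        have h8 : Real.log d ^ 4 = Real.log d * Real.log d ^ 3 := by ring
        rw [h8]
        apply mul_le_mul_of_nonneg_left _ (by linarith)
        have h9 : (100 : ℝ) ^ 3 ≤ Real.log d ^ 3 := pow_le_pow_left₀ (by norm_num) hlog100 3
        norm_num at h9 ⊢
        linarith
      linarith
    calc (((Z y).filter (fun v => c' v = b)).card : ℝ) ≤ _ := h4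
      _ ≤ 200000 * (Real.log d + 1) * (1 + ((Z y).card : ℝ) / d) +
          64 * mm * (1 + ((Z y).card : ℝ) / d) := add_le_add h1 h2
      _ = (200000 * (Real.log d + 1) + 64 * mm) * (1 + ((Z y).card : ℝ) / d) := by ring
      _ ≤ Real.log d ^ 4 * (1 + ((Z y).card : ℝ) / d) := mul_le_mul_of_nonneg_right h6 h5

end Pool.Agent.Work.MP_db9399_owc.helper89
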