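import Pool.Agent.Work.MP_db9399_ow_helper6.Hold
import Pool.Agent.Work.MP_db9399_owc_helper68.SUBL2
import Pool.Agent.Work.MP_db9399_owc_helper72.BATCH2
import Pool.Agent.Work.MP_db9399_owc_helper79.OVL
import Pool.Agent.Work.MP_db9399_owc_helper79.SSUB
import Pool.Agent.Work.MP_db9399_owc_helper89.ITER2
import Pool.Agent.Work.MP_db9399_owc_helper89.OWN2

/-!
# MP_db9399, OWN2: all blocks put together, `Stmt_OWN2` without hypotheses (helper89)
-/

set_option autoImplicit false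

namespace Pool.Agent.Work.MP_db9399_owc.helper89

open Pool.Agent.Work.MP_db9399_ow
open Pool.Agent.Work.MP_db9399_owc

universe u

/-- `Stmt_OWN2`, unconditional. -/
theorem own2_hold : Stmt_OWN2.{u} := by
  have hL : Pool.Agent.Work.MP_db9399_all.Stmt_LLLI.{u} :=
    Pool.Agent.Work.MP_db9399_all.stmt_LLLI
  have hSYM : Stmt_SYM.{u} := Pool.Agent.Work.MP_db9399_ow.helper21.stmt_SYM hL
  have hLSTL : Stmt_LSTL.{u} := Pool.Agent.Work.MP_db9399_ow.helper21.stmt_LSTL hL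
  have hOFFX : Stmt_OFFX.{u} := Pool.Agent.Work.MP_db9399_ow.helper44.stmt_OFFX
  have hPNB : Stmt_PNB := Pool.Agent.Work.MP_db9399_ow.helper44.stmt_PNB
  have hVAR : Stmt_VAR.{u} :=
    Pool.Agent.Work.MP_db9399_ow.helper12.stmt_VAR Pool.Agent.Work.MP_db9399_ow.helper20.stmt_LOCP
      Pool.Agent.Work.MP_db9399_ow.helper79.stmt_LOC2
      Pool.Agent.Work.MP_db9399_ow.helper23.stmt_COVB hPNB
  have hSGN : Stmt_SGN.{u} := Pool.Agent.Work.MP_db9399_ow.helper79.stmt_SGN hOFFX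
    Pool.Agent.Work.MP_db9399_ow.helper20.stmt_LOCP hVAR
  have hMLT : Stmt_MLT.{u} := Pool.Agent.Work.MP_db9399_ow.helper79.stmt_MLT hOFFX
  have hBATCH : Stmt_BATCH2.{u} :=
    Pool.Agent.Work.MP_db9399_owc.helper72.stmt_BATCH2 hSYM hOFFX
      (Pool.Agent.Work.MP_db9399_ow.helper20.stmt_DEV hOFFX
        Pool.Agent.Work.MP_db9399_ow.helper20.stmt_LOCP) hSGN hMLT
      Pool.Agent.Work.MP_db9399_ow.helper14.stmt_TWO hPNB
      Pool.Agent.Work.MP_db9399_owc.helper79.stmt_OVL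
  have hITER : Stmt_ITER2.{u} :=
    stmt_ITER2 hBATCH Pool.Agent.Work.MP_db9399_ow.helper59.stmt_STPI
      Pool.Agent.Work.MP_db9399_ow.helper59.stmt_STPO
      Pool.Agent.Work.MP_db9399_ow.helper59.stmt_STPC hPNB
  exact stmt_OWN2 hITER (Pool.Agent.Work.MP_db9399_owc.helper68.stmt_SUBL2 hSYM)
    (Pool.Agent.Work.MP_db9399_owc.helper79.stmt_SSUB hSYM) hLSTL

end Pool.Agent.Work.MP_db9399_owc.helper89
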