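import Pool.Agent.Work.MP_db9399_owc_helper89.STB

/-!
# MP_db9399, OWN2, block ITER2: one step, the second half (helper89; from ITERC of helper6)
-/

set_option autoImplicit false

namespace Pool.Agent.Work.MP_db9399_owc.helper89

open Finset Classical
open Pool.Agent.Work.MP_db9399_all (nb mis pr DepOnI)
open Pool.Agent.Work.MP_db9399_ow
open Pool.Agent.Work.MP_db9399_ow.helper6
open Pool.Agent.Work.MP_db9399_owc

universe u

theorem rrB {B E : ℕ} {y u z ε : ℝ} (hy : 0 < y) (hy1 : y ≤ 1 / 1000) (hz0 : 0 ≤ z)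
    (hε : ε ≤ z * (2 * y ^ (G0 B E + 2))) :
    (1 - u) * y ^ (B + E + 3) + ε ≤ (1 - (u - z)) * y ^ (B + E + 3) := by
  have hG : G0 B E + 2 = (B + E + 3) + (11 * B + 3) := by unfold G0; ring
  have h0 : 0 < y ^ (B + E + 3) := by positivity
  have h1 : y ^ (G0 B E + 2) ≤ y ^ (B + E + 3) * y := by
    rw [hG, pow_add]
    apply mul_le_mul_of_nonneg_left _ h0.le
    calc y ^ (11 * B + 3) ≤ y ^ 1 := pow_le_pow_of_le_one hy.le (by linarith) (by omega)
      _ = y := pow_one y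
  have h2 : 2 * y ^ (G0 B E + 2) ≤ y ^ (B + E + 3) := by nlinarith
  have h3 := mul_le_mul_of_nonneg_left h2 hz0
  linarith

/-- `kk` is large enough -/
theorem kk_bd {V Y : Type u} [Fintype V] (d D : ℕ) (Z : Y → Finset V) (U : Finset V) (u er : ℝ)
    (hd : 0 < d) (hu : 0 < u) (her : er ≤ u / 1000) (hD : 0.997 * (u * d) ≤ D) (q : Y)
    (h1 : ((Z q ∩ U).card : ℝ) ≤ (u + er) * (d + (Z q).card)) :
    2 * ((⌈100 * Real.log d⌉₊ : ℝ) / D) * ((Z q ∩ U).card : ℝ) ≤ kk d Z q := by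
  have hd0 : (0 : ℝ) < d := by exact_mod_cast hd
  have ht0 : (0 : ℝ) ≤ (⌈100 * Real.log d⌉₊ : ℝ) := Nat.cast_nonneg _
  have hZ0 : (0 : ℝ) ≤ (Z q).card := Nat.cast_nonneg _
  have h2 : (u + er) * (d + (Z q).card) ≤ 1.001 * u * (d + (Z q).card) := by
    apply mul_le_mul_of_nonneg_right _ (by positivity)
    linarith
  have h3 : ((Z q ∩ U).card : ℝ) ≤ 1.001 * u * (d + (Z q).card) := h1.trans h2
  have hD0 : (0 : ℝ) < D := by
    have : 0 < u * d := by positivity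
    linarith
  have h4 : 2 * ((⌈100 * Real.log d⌉₊ : ℝ) / D) * ((Z q ∩ U).card : ℝ) =
      (⌈100 * Real.log d⌉₊ : ℝ) * (2 * ((Z q ∩ U).card : ℝ) / D) := by ring
  rw [h4]
  unfold kk
  have h5 : 2 * ((Z q ∩ U).card : ℝ) / D ≤ 1000 * (1 + ((Z q).card : ℝ) / d) := by
    rw [div_le_iff₀ hD0]
    have h6 : 1000 * (1 + ((Z q).card : ℝ) / d) * (0.997 * (u * d)) ≤
        1000 * (1 + ((Z q).card : ℝ) / d) * D :=
      mul_le_mul_of_nonneg_left hD (by positivity)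
    have h7 : 1000 * (1 + ((Z q).card : ℝ) / d) * (0.997 * (u * d)) =
        997 * u * (d + (Z q).card) := by
      field_simp
      ring
    have h8 : 0 ≤ u * (d + (Z q).card) := by positivity
    linarith
  have h6 := mul_le_mul_of_nonneg_left h5 ht0
  linarith

theorem kk_lo {V Y : Type u} (d : ℕ) (Z : Y → Finset V) (q : Y) : 100 * Real.log d ≤ kk d Z q := by
  have ht1 : 100 * Real.log d ≤ (⌈100 * Real.log d⌉₊ : ℝ) := Nat.le_ceil _
  have ht0 : (0 : ℝ) ≤ (⌈100 * Real.log d⌉₊ : ℝ) := Nat.cast_nonneg _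
  unfold kk
  have h1 : 1 ≤ 1 + ((Z q).card : ℝ) / d := by
    have : 0 ≤ ((Z q).card : ℝ) / d := by positivity
    linarith
  have h2 : 1000 * (⌈100 * Real.log d⌉₊ : ℝ) * 1 ≤
      1000 * (⌈100 * Real.log d⌉₊ : ℝ) * (1 + ((Z q).card : ℝ) / d) :=
    mul_le_mul_of_nonneg_left h1 (by positivity)
  linarith

/-- the second half of a step: the state -/
theorem fin2 (hSTPI : Stmt_STPI.{u}) (hSTPO : Stmt_STPO.{u}) (hSTPC : Stmt_STPC.{u})
    (B C K2 K1 E : ℕ) (hB : 2 * K1 + 4 ≤ B) {V : Type u} [Fintype V] {P : ℕ} {J R : Type u}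
    [Fintype J] [Fintype R] (G : SimpleGraph V) (d x : ℕ) (g : J → Fin P → V → ℝ) (e : J → ℝ)
    (Q : R → Finset (Fin P × V)) (y : ℝ) (hy : y = 1 / (x : ℝ)) (hX : (1000 : ℝ) ≤ x)
    (hdpos : 0 < d) (A m : ℕ) (hdeg' : ∀ v, |((nb G v).card : ℝ) - d| ≤ y ^ (G0 B E + 2) * d)
    (hmis : ∀ v, (d : ℝ) ^ 2 / (x : ℝ) ^ K1 ≤ ((mis G (nb G v)).card : ℝ)) (hA : A = eA B E)
    (β n : ℕ) (U : Finset V) (c : V → Fin P) (u z : ℝ) (hz : z = (β : ℝ) / d) (hu1 : u ≤ 1)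
    (huz' : y ^ B ≤ u - z) (hzm2 : y ^ m ≤ 2 * z)
    (hSt' : Stt G d g e Q U c n u (er B E y u) ((1 - u) * y ^ (B + E + 3))
      (y ^ K1 / 8 / 256 * (d * min (1 - u) (y ^ K1 / 8))) ((1 - u) * (2 * (x : ℝ) ^ m *
        (x : ℝ) ^ (A + (B + 1) + (C + 2) + K2 + 5))))
    (D : ℕ) (hDup : (D : ℝ) ≤ 1.005 * d) (Bt : Finset (Fin P)) (hBtc : Bt.card = β) (Pr : V → ℝ)
    (η γ ε ε1 a : ℝ) (hη : η = y ^ (G0 B E + 2)) (hγ : γ = 6 * y ^ A) (ha : a = y ^ K1 / 8)
    (hεb : ε ≤ z * (2 * y ^ (G0 B E + 2))) (hε1b : ε1 ≤ z * (8 * y ^ (G0 B E + 3)))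
    (A' O : Fin P → Finset V)
    (hyp : Hyp G d g e Q U c n u (er B E y u) ((1 - u) * y ^ (B + E + 3))
      (y ^ K1 / 8 / 256 * (d * min (1 - u) (y ^ K1 / 8))) ((1 - u) * (2 * (x : ℝ) ^ m *
        (x : ℝ) ^ (A + (B + 1) + (C + 2) + K2 + 5))) D Bt Pr γ η ε ε1
      ((x : ℝ) ^ (A + (B + 1) + (C + 2) + K2 + 5)) a A' O) :
    Stt G d g e Q (nU Bt A' U) (ncol Bt A' c) (n + β) (u - z) (er B E y (u - z))
      ((1 - (u - z)) * y ^ (B + E + 3))
      (y ^ K1 / 8 / 256 * (d * min (1 - (u - z)) (y ^ K1 / 8))) ((1 - (u - z)) * (2 * (x : ℝ) ^ m *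
        (x : ℝ) ^ (A + (B + 1) + (C + 2) + K2 + 5))) := by
  have hε0 : 0 ≤ ε := hyp.ε0
  subst hη hγ ha hA
  have hX0 : (0 : ℝ) < x := by linarith
  have hd0 : (0 : ℝ) < d := by exact_mod_cast hdpos
  have hy0 : 0 < y := by rw [hy]; positivity
  have hy1 : y ≤ 1 / 1000 := by
    rw [hy]
    exact one_div_le_one_div_of_le (by norm_num) hX
  have hyle1 : y ≤ 1 := by linarith
  have hyX : ∀ k : ℕ, y ^ k = 1 / (x : ℝ) ^ k := fun k => by rw [hy, one_div, inv_pow, one_div]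
  have hz0 : 0 ≤ z := by rw [hz]; positivity
  have hzβ : z * d = β := by rw [hz]; exact div_mul_cancel₀ _ hd0.ne'
  have hyB : 0 < y ^ B := by positivity
  have huB : y ^ B ≤ u := by linarith
  have hu0 : 0 < u := by linarith
  have hBtz : (Bt.card : ℝ) / d = z := by rw [hBtc, hz]
  have hη0 : 0 ≤ y ^ (G0 B E + 2) := by positivity
  have hγ0 : 0 ≤ 6 * y ^ eA B E := by positivity
  have hη1 : y ^ (G0 B E + 2) ≤ 1 / 1000 :=
    (pow_le_pow_of_le_one hy0.le hyle1 (by omega : 1 ≤ G0 B E + 2)).trans (by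
      rw [pow_one]
      exact hy1)
  have her0 : 0 ≤ er B E y u := er_nonneg hy0.le hu0.le
  have hI := hSTPI G d g e Q U c n u _ _ _ _ D Bt _ _ _ ε ε1 _ _ A' O hyp
  have hO := hSTPO G d g e Q U c n u _ _ _ _ D Bt _ _ _ ε ε1 _ _ A' O hyp
    ((1 - (u - z)) * y ^ (B + E + 3)) (by
      rw [hBtz]
      have := rr_sum (B := B) (E := E) (u := u) hy0 hy1 hz0 huB (η := y ^ (G0 B E + 2)) (γ := 6 * y ^ eA B E) (ε := ε)
        (ε1 := ε1) le_rfl rfl hεb hε1b
      linarith)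
  have herr : er B E y u * (1 + 9 * (Bt.card / d) / u) + 4 * (Bt.card / d) * (y ^ (G0 B E + 2) + 6 * y ^ eA B E) + ε + ε1 ≤
      er B E y (u - z) := by
    rw [hBtz]
    have h1 := er_step (B := B) (E := E) (u := u) hy0 hz0 hu1 (by linarith : 0 < u - z)
    have h2 := small_sum (B := B) (E := E) hy0 hy1 hz0 (η := y ^ (G0 B E + 2)) (γ := 6 * y ^ eA B E) (ε := ε) (ε1 := ε1)
      le_rfl rfl hεb hε1b
    linarith
  have hM0 : (0 : ℝ) ≤ (x : ℝ) ^ (eA B E + (B + 1) + (C + 2) + K2 + 5) := by positivity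
  have hν : (1 - u) * (2 * (x : ℝ) ^ m * (x : ℝ) ^ (eA B E + (B + 1) + (C + 2) + K2 + 5)) +
      (x : ℝ) ^ (eA B E + (B + 1) + (C + 2) + K2 + 5) ≤
      (1 - (u - z)) * (2 * (x : ℝ) ^ m * (x : ℝ) ^ (eA B E + (B + 1) + (C + 2) + K2 + 5)) := by
    have h1 : 1 ≤ 2 * z * (x : ℝ) ^ m := by
      have h2 : y ^ m * (x : ℝ) ^ m = 1 := by
        rw [← mul_pow, hy, one_div, inv_mul_cancel₀ hX0.ne', one_pow]
      calc (1 : ℝ) = y ^ m * (x : ℝ) ^ m := h2.symm
        _ ≤ 2 * z * (x : ℝ) ^ m := by gcongr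
    have h2 := mul_le_mul_of_nonneg_right h1 hM0
    linarith
  have hrr : (1 - u) * y ^ (B + E + 3) + 2 * ε1 ≤ (1 - (u - z)) * y ^ (B + E + 3) := by
    have h1 := rr_sum (B := B) (E := E) (u := u) hy0 hy1 hz0 huB (η := y ^ (G0 B E + 2)) (γ := 6 * y ^ eA B E) (ε := ε)
        (ε1 := ε1) le_rfl rfl hεb hε1b
    have h2 : 0 ≤ z * (14 * er B E y u / u + 6 * y ^ (G0 B E + 2) + 6 * (6 * y ^ eA B E)) := by positivity
    linarith
  -- saved colours
  have hgn : ∃ gn', (gn' = (y ^ K1 / 8 / 256 * (d * min (1 - u) (y ^ K1 / 8))) ∨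
      (∀ v, y ^ K1 / 8 * (D : ℝ) ^ 2 ≤ ((mis G (nb G v ∩ U)).card : ℝ)) ∧
      gn' = (y ^ K1 / 8 / 256 * (d * min (1 - u) (y ^ K1 / 8))) + y ^ K1 / 8 / 256 * Bt.card) ∧
      y ^ K1 / 8 / 256 * (d * min (1 - (u - z)) (y ^ K1 / 8)) ≤ gn' := by
    by_cases hc : 1 - u ≤ y ^ K1 / 8
    · refine ⟨_, Or.inr ⟨?_, rfl⟩, ?_⟩
      · intro v
        have h1 := hmis v
        have h2 := mis_sub G (nb G v) U
        have h3 : ((nb G v \ U).card : ℝ) ≤ 0.126 * (y ^ K1 * d) := by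
          have h4 : ((nb G v \ U).card : ℝ) + (nb G v ∩ U).card = (nb G v).card := by
            exact_mod_cast card_sdiff_add_card_inter (nb G v) U
          have h5 := deg_bd hdpos hSt' hdeg' hu0.le v
          have h6 := (abs_le.1 h5).1
          have h7 := (abs_le.1 (hdeg' v)).2
          have h8 : 2 * er B E y u + u * y ^ (G0 B E + 2) + y ^ (G0 B E + 2) ≤ 1 / 1000 * y ^ K1 := by
            have h9 : er B E y u ≤ y ^ (2 * B + E + 4) := er_le hy0 huB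
            have h10 : y ^ (2 * B + E + 4) ≤ y ^ (K1 + 2) :=
              pow_le_pow_of_le_one hy0.le hyle1 (by omega)
            have h11 : y ^ (G0 B E + 2) ≤ y ^ (K1 + 2) :=
              pow_le_pow_of_le_one hy0.le hyle1 (by unfold G0; omega)
            have h12 : y ^ (K1 + 2) = y ^ K1 * y ^ 2 := pow_add _ _ _
            have h13 : y ^ 2 ≤ 1 / 1000 * (1 / 1000) := by nlinarith
            have h14 : 0 < y ^ K1 := by positivity
            have h15 : u * y ^ (G0 B E + 2) ≤ y ^ (G0 B E + 2) := by nlinarith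
            nlinarith
          have h9 : (2 * er B E y u + u * y ^ (G0 B E + 2) + y ^ (G0 B E + 2)) * d ≤ 1 / 1000 * y ^ K1 * d := by gcongr
          have h10 : (1 - u) * d ≤ y ^ K1 / 8 * d := by gcongr
          linarith
        have h4 : ((nb G v).card : ℝ) ≤ 1.001 * d := by
          have h7 := (abs_le.1 (hdeg' v)).2
          nlinarith
        have h5 : ((nb G v \ U).card : ℝ) * (nb G v).card ≤
            0.126 * (y ^ K1 * d) * (1.001 * d) :=
          mul_le_mul h3 h4 (Nat.cast_nonneg _) (by positivity)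
        have h6 : (d : ℝ) ^ 2 / (x : ℝ) ^ K1 = y ^ K1 * d ^ 2 := by
          rw [hyX]
          ring
        have h7 : (D : ℝ) ^ 2 ≤ (1.005 * d) ^ 2 := by
          apply pow_le_pow_left₀ (Nat.cast_nonneg _)
          linarith
        rw [h6] at h1
        have h8 : 0 ≤ y ^ K1 * (d : ℝ) ^ 2 := by positivity
        calc y ^ K1 / 8 * (D : ℝ) ^ 2 ≤ y ^ K1 / 8 * (1.005 * d) ^ 2 := by gcongr
          _ = 1.005 ^ 2 / 8 * (y ^ K1 * (d : ℝ) ^ 2) := by ring
          _ ≤ _ := by nlinarith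
      · have h1 : min (1 - (u - z)) (y ^ K1 / 8) ≤ min (1 - u) (y ^ K1 / 8) + z := by
          rw [min_eq_left hc]
          refine (min_le_left _ _).trans (by linarith)
        have h2 : y ^ K1 / 8 / 256 * (d * min (1 - (u - z)) (y ^ K1 / 8)) ≤
            y ^ K1 / 8 / 256 * (d * (min (1 - u) (y ^ K1 / 8) + z)) := by gcongr
        refine h2.trans (le_of_eq ?_)
        rw [hBtc, ← hzβ]
        ring
    · refine ⟨_, Or.inl rfl, ?_⟩
      rw [not_le] at hc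
      rw [min_eq_right (by linarith), min_eq_right (by linarith)]
  obtain ⟨gn', hgn1, hgn2⟩ := hgn
  obtain ⟨c1, c2, c3, c4⟩ := hSTPC G d g e Q U c n u _ _ _ _ D Bt _ _ _ ε ε1 _ _ A' O hyp gn' hgn1
  rw [hBtc] at c1
  simp only [hBtz] at hI
  simp only [hBtz] at hO
  simp only [hBtc] at hO
  exact
    { low := c1
      prp := c2
      inv := fun τ => (hI τ).trans (by rw [hBtz] at herr; exact herr)
      o1 := hO.1
      o2 := hO.2
      upp := fun q => (c3 q).trans hν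
      cnt := fun v => by
        have h1 := c4 v
        have h2 := mul_le_mul_of_nonneg_right hrr hd0.le
        linarith }


end Pool.Agent.Work.MP_db9399_owc.helper89
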