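import Pool.Agent.Work.MP_db9399_owc.Blocks
import Pool.Agent.Work.MP_db9399_ow_helper6.ITERC

/-!
# MP_db9399, OWN2, block ITER2: the set of the bad vertices after a batch (helper89)
-/

set_option autoImplicit false

namespace Pool.Agent.Work.MP_db9399_owc.helper89

open Finset Classical
open Pool.Agent.Work.MP_db9399_all (nb mis pr DepOnI)
open Pool.Agent.Work.MP_db9399_ow
open Pool.Agent.Work.MP_db9399_owc

universe u

section state
variable {V : Type u} [Fintype V] {P : ℕ} {J R Y : Type u}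

/-- the state of the bad vertices -/
structure Sb (G : SimpleGraph V) (d : ℕ) (g : J → Fin P → V → ℝ) (Z : Y → Finset V) (k : Y → ℝ)
    (U Bd : Finset V) (c : V → Fin P) (rr : ℝ) : Prop where
  out : ∀ v ∈ Bd, v ∉ U
  cst : ∀ τ, ∑ v ∈ Bd, Hc G d g τ v ≤ rr
  mix : ∀ j (s : Bool), ∑ v ∈ Bd, max (if s then g j (c v) v else - g j (c v) v) 0 ≤ rr
  cap : ∀ y b, (((Z y).filter (fun v => v ∉ U ∧ v ∉ Bd ∧ c v = b)).card : ℝ) ≤ k y

/-- the new bad vertices -/
noncomputable def nB (Bt : Finset (Fin P)) (A Bb : Fin P → Finset V) (c : V → Fin P)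
    (Bd : Finset V) : Finset V :=
  Bd ∪ (Bt.biUnion A).filter (fun v => v ∈ Bb (ncol Bt A c v))

omit [Fintype V] in
theorem ncol_mem {Bt : Finset (Fin P)} {A : Fin P → Finset V} {c : V → Fin P} {v : V}
    (hv : v ∈ Bt.biUnion A) : ncol Bt A c v ∈ Bt ∧ v ∈ A (ncol Bt A c v) := by
  obtain ⟨b, hb, hvb⟩ := mem_biUnion.1 hv
  have h : (Bt.filter (fun b => v ∈ A b)).Nonempty := ⟨b, mem_filter.2 ⟨hb, hvb⟩⟩
  unfold ncol
  rw [dif_pos h]
  have h1 := min'_mem _ h
  rw [mem_filter] at h1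
  exact h1

omit [Fintype V] in
theorem ncol_not {Bt : Finset (Fin P)} {A : Fin P → Finset V} {c : V → Fin P} {v : V}
    (hv : v ∉ Bt.biUnion A) : ncol Bt A c v = c v := by
  unfold ncol
  rw [dif_neg]
  rintro ⟨b, hb⟩
  rw [mem_filter] at hb
  exact hv (mem_biUnion.2 ⟨b, hb⟩)

theorem sum_new {Bt : Finset (Fin P)} {A Bb : Fin P → Finset V} {c : V → Fin P}
    (F : Fin P → V → ℝ) (h0 : ∀ b v, 0 ≤ F b v) :
    ∑ v ∈ (Bt.biUnion A).filter (fun v => v ∈ Bb (ncol Bt A c v)), F (ncol Bt A c v) v ≤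
      ∑ b ∈ Bt, ∑ v ∈ Bb b, F b v := by
  rw [← sum_fiberwise_of_maps_to (s := (Bt.biUnion A).filter (fun v => v ∈ Bb (ncol Bt A c v)))
    (t := Bt) (g := fun v => ncol Bt A c v) (f := fun v => F (ncol Bt A c v) v)
    fun v hv => (ncol_mem (mem_filter.1 hv).1).1]
  refine sum_le_sum fun b _ => ?_
  have h1 : ∀ v ∈ ((Bt.biUnion A).filter (fun v => v ∈ Bb (ncol Bt A c v))).filter
      (fun v => ncol Bt A c v = b), F (ncol Bt A c v) v = F b v := by
    intro v hv
    rw [(mem_filter.1 hv).2]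
  rw [sum_congr rfl h1]
  refine sum_le_sum_of_subset_of_nonneg ?_ fun v _ _ => h0 b v
  intro v hv
  rw [mem_filter, mem_filter] at hv
  rw [← hv.2]
  exact hv.1.2

theorem stepB [Fintype J] [Fintype Y] {G : SimpleGraph V} {d : ℕ}
    {g : J → Fin P → V → ℝ} {Z : Y → Finset V} {k : Y → ℝ} {U Bd : Finset V} {c : V → Fin P}
    {n : ℕ} {rr ε : ℝ} {Bt : Finset (Fin P)} {A Bb : Fin P → Finset V}
    (h : Sb G d g Z k U Bd c rr) (hlow : ∀ v, v ∉ U → (c v : ℕ) < n)
    (hBt : ∀ b ∈ Bt, n ≤ (b : ℕ)) (hA : ∀ b, A b ⊆ U)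
    (hb : Bdx Bt (Fm G d g) Z k ε A Bb) :
    Sb G d g Z k (nU Bt A U) (nB Bt A Bb c Bd) (ncol Bt A c) (rr + ε) := by
  have hAU : ∀ v, v ∉ U → v ∉ Bt.biUnion A := by
    intro v hv hv'
    obtain ⟨b, _, hvb⟩ := mem_biUnion.1 hv'
    exact hv (hA b hvb)
  have hmax : ∀ a : ℝ, 0 ≤ max a 0 := fun a => le_max_right _ _
  have hun : ∀ f : V → ℝ, (∀ v, 0 ≤ f v) → ∑ v ∈ nB Bt A Bb c Bd, f v ≤ ∑ v ∈ Bd, f v +
      ∑ v ∈ (Bt.biUnion A).filter (fun v => v ∈ Bb (ncol Bt A c v)), f v := by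
    intro f hf
    have h1 := sum_union_inter (s₁ := Bd)
      (s₂ := (Bt.biUnion A).filter (fun v => v ∈ Bb (ncol Bt A c v))) (f := f)
    have h2 : 0 ≤ ∑ v ∈ Bd ∩ (Bt.biUnion A).filter (fun v => v ∈ Bb (ncol Bt A c v)), f v :=
      sum_nonneg fun v _ => hf v
    unfold nB
    linarith
  refine ⟨fun v hv => ?_, fun τ => ?_, fun j s => ?_, fun y b => ?_⟩
  · unfold nU
    rw [mem_sdiff, not_and, not_not]
    rcases mem_union.1 hv with h1 | h1
    · exact fun h2 => absurd h2 (h.out v h1)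
    · exact fun _ => (mem_filter.1 h1).1
  · have h0 : ∀ v, 0 ≤ Hc G d g τ v := by
      intro v
      rcases τ with w | ⟨j, b, s⟩
      · show 0 ≤ if G.Adj w v then 1 / (2 * (d : ℝ)) else 0
        split_ifs
        · positivity
        · exact le_rfl
      · exact hmax _
    refine (hun _ h0).trans (add_le_add (h.cst τ) ?_)
    refine le_trans (sum_new (fun b v => Fm G d g (Sum.inl τ) b v) fun b v => ?_)
      (hb.few (Sum.inl τ))
    exact h0 v
  · refine (hun _ fun v => hmax _).trans (add_le_add ?_ ?_)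
    · refine le_trans (le_of_eq (sum_congr rfl fun v hv => ?_)) (h.mix j s)
      rw [ncol_not (hAU v (h.out v hv))]
    · refine le_trans (sum_new (fun b v => Fm G d g (Sum.inr (j, s)) b v) fun b v => ?_)
        (hb.few (Sum.inr (j, s)))
      exact hmax _
  · by_cases hbt : b ∈ Bt
    · refine le_trans ?_ (hb.cap y b hbt)
      have h1 : (Z y).filter (fun v => v ∉ nU Bt A U ∧ v ∉ nB Bt A Bb c Bd ∧
          ncol Bt A c v = b) ⊆ (A b \ Bb b) ∩ Z y := by
        intro v hv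
        rw [mem_filter] at hv
        obtain ⟨hvZ, hv1, hv2, hv3⟩ := hv
        by_cases hvA : v ∈ Bt.biUnion A
        · have h2 := ncol_mem (c := c) hvA
          rw [mem_inter, mem_sdiff]
          refine ⟨⟨hv3 ▸ h2.2, fun h3 => hv2 ?_⟩, hvZ⟩
          unfold nB
          rw [mem_union, mem_filter]
          right
          rw [hv3]
          exact ⟨hvA, h3⟩
        · exfalso
          have h3 : v ∉ U := fun h4 => hv1 (mem_sdiff.2 ⟨h4, hvA⟩)
          have h4 := hlow v h3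
          rw [ncol_not hvA] at hv3
          rw [hv3] at h4
          have := hBt b hbt
          omega
      exact_mod_cast card_le_card h1
    · refine le_trans ?_ (h.cap y b)
      have h1 : (Z y).filter (fun v => v ∉ nU Bt A U ∧ v ∉ nB Bt A Bb c Bd ∧
          ncol Bt A c v = b) ⊆ (Z y).filter (fun v => v ∉ U ∧ v ∉ Bd ∧ c v = b) := by
        intro v hv
        rw [mem_filter] at hv ⊢
        obtain ⟨hvZ, hv1, hv2, hv3⟩ := hv
        have hvA : v ∉ Bt.biUnion A := by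
          intro hvA
          exact hbt (hv3 ▸ (ncol_mem (c := c) hvA).1)
        have h3 : v ∉ U := fun h4 => hv1 (mem_sdiff.2 ⟨h4, hvA⟩)
        refine ⟨hvZ, h3, fun h5 => hv2 (mem_union_left _ h5), ?_⟩
        rw [← hv3, ncol_not hvA]
      exact_mod_cast card_le_card h1

/-- the bounds `k y` -/
noncomputable def kk (d : ℕ) (Z : Y → Finset V) (y : Y) : ℝ :=
  1000 * (⌈100 * Real.log d⌉₊ : ℝ) * (1 + ((Z y).card : ℝ) / d)

/-- the parts of the sets `Z y` which are not yet coloured -/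
theorem Z_bd [Fintype J] [Fintype R] {G : SimpleGraph V} {d x K : ℕ} {g : J → Fin P → V → ℝ}
    {e : J → ℝ} {Q : R → Finset (Fin P × V)} {U : Finset V} {c : V → Fin P} {n : ℕ}
    {u er rr gn ν : ℝ} {Z : Y → Finset V} {jy : Y → J} (h : Stt G d g e Q U c n u er rr gn ν)
    (hd : 0 < d) (hx : 1 ≤ x) (hu : 0 ≤ u) (hjy : ∀ y b v, g (jy y) b v = Zt d x K Z y v)
    (b : Fin P) (y : Y) :
    ((Z y ∩ U).card : ℝ) ≤ (u + er) * (d + (Z y).card) := by
  have hd0 : (0 : ℝ) < d := by exact_mod_cast hd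
  have hxK : (1 : ℝ) ≤ (x : ℝ) ^ K := one_le_pow₀ (by exact_mod_cast hx)
  set m : ℝ := max ((Z y).card : ℝ) ((d : ℝ) / (x : ℝ) ^ K) with hm
  have hm0 : 0 < m := lt_of_lt_of_le (by positivity) (le_max_right _ _)
  have h1 := (abs_le.1 (h.inv (Sum.inr (jy y, b, true)))).2
  have h2 : ∀ v, Hc G d g (Sum.inr (jy y, b, true)) v = Zt d x K Z y v := by
    intro v
    show max (if true then g (jy y) b v else - g (jy y) b v) 0 = _
    rw [if_pos rfl, hjy]
    apply max_eq_left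
    unfold Zt
    split_ifs
    · positivity
    · exact le_rfl
  have h3 : ∀ W : Finset V, ∑ v ∈ W, Zt d x K Z y v = ((Z y ∩ W).card : ℝ) * (1 / m) := by
    intro W
    unfold Zt
    rw [← sum_filter, sum_const, nsmul_eq_mul]
    congr 2
    apply congrArg
    ext v
    simp only [mem_filter, mem_inter]
    tauto
  rw [sum_congr rfl fun v _ => h2 v, sum_congr rfl fun v _ => h2 v, h3, h3, inter_univ] at h1
  have h4 : ((Z y).card : ℝ) * (1 / m) ≤ 1 := by
    rw [mul_one_div, div_le_one hm0]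
    exact le_max_left _ _
  have h5 : ((Z y ∩ U).card : ℝ) * (1 / m) ≤ u + er := by
    have := mul_le_mul_of_nonneg_left h4 hu
    linarith
  rw [mul_one_div, div_le_iff₀ hm0] at h5
  have h6 : m ≤ d + (Z y).card := by
    refine max_le ?_ ?_
    · linarith
    · have h7 : (d : ℝ) / (x : ℝ) ^ K ≤ d := div_le_self hd0.le hxK
      have h8 : (0 : ℝ) ≤ (Z y).card := Nat.cast_nonneg _
      linarith
  refine h5.trans (mul_le_mul_of_nonneg_left h6 ?_)
  have h7 : (0 : ℝ) ≤ (Z y ∩ U).card := Nat.cast_nonneg _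
  by_contra h8
  push Not at h8
  nlinarith

end state

end Pool.Agent.Work.MP_db9399_owc.helper89
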